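import Mathlib

/-!
Definitions: `t`-independent subsets of `ZMod n` and the extremal function.
-/

open Finset

namespace Pool.Agent.MP_364e44_co

/-- A finite set `A` of elements of `ZMod n` is `t`-independent if no integer combination
`∑ c_a a` with `1 ≤ ∑ |c_a| ≤ t` vanishes in `ZMod n`. -/
def TIndep (n t : ℕ) (A : Finset (ZMod n)) : Prop :=
  ∀ c : ZMod n → ℤ, 1 ≤ ∑ a ∈ A, |c a| → ∑ a ∈ A, |c a| ≤ (t : ℤ) → ∑ a ∈ A, c a • a ≠ 0

/-- `tau n t` is the maximum size of a `t`-independent subset of `ZMod n` (for `n ≥ 1`). -/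
noncomputable def tau (n t : ℕ) : ℕ := sSup {k : ℕ | ∃ A : Finset (ZMod n), TIndep n t A ∧ #A = k}

end Pool.Agent.MP_364e44_co
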