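import Mathlib
import Pool.Agent.MP_364e44_co.Defs

open Finset

namespace Pool.Agent.MP_364e44_co

lemma tindep_empty (n t : ℕ) : TIndep n t ∅ := by
  intro c h1
  simp at h1

lemma bddAbove_tau (n t : ℕ) [NeZero n] :
    BddAbove {k : ℕ | ∃ A : Finset (ZMod n), TIndep n t A ∧ #A = k} := by
  refine ⟨n, ?_⟩
  rintro k ⟨A, -, rfl⟩
  calc #A ≤ Fintype.card (ZMod n) := Finset.card_le_univ _
    _ = n := ZMod.card n

lemma exists_tau (n t : ℕ) [NeZero n] : ∃ A : Finset (ZMod n), TIndep n t A ∧ #A = tau n t :=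
  Nat.sSup_mem (s := {k : ℕ | ∃ A : Finset (ZMod n), TIndep n t A ∧ #A = k})
    ⟨0, ∅, tindep_empty n t, rfl⟩ (bddAbove_tau n t)

lemma le_tau {n t : ℕ} [NeZero n] {A : Finset (ZMod n)} (hA : TIndep n t A) : #A ≤ tau n t :=
  le_csSup (bddAbove_tau n t) ⟨A, hA, rfl⟩

lemma tau_le {n t : ℕ} [NeZero n] : tau n t ≤ n := by
  obtain ⟨A, -, hA⟩ := exists_tau n t
  rw [← hA]
  calc #A ≤ Fintype.card (ZMod n) := Finset.card_le_univ _
    _ = n := ZMod.card n

/-- `t`-independence follows from the statement about multisets. -/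
lemma tindep_of_multiset {n t : ℕ} {A : Finset (ZMod n)}
    (h : ∀ M₁ M₂ : Multiset (ZMod n), (∀ x ∈ M₁, x ∈ A) → (∀ x ∈ M₂, x ∈ A) →
      Multiset.card M₁ + Multiset.card M₂ ≤ t → M₁.sum = M₂.sum → M₁ = M₂) : TIndep n t A := by
  classical
  intro c h1 h2 h3
  set M₁ : Multiset (ZMod n) := ∑ a ∈ A, Multiset.replicate (c a).toNat a with hM₁
  set M₂ : Multiset (ZMod n) := ∑ a ∈ A, Multiset.replicate (-c a).toNat a with hM₂
  have hc1 : ∀ x, M₁.count x = if x ∈ A then (c x).toNat else 0 := by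
    intro x
    rw [hM₁, Multiset.count_sum']
    simp [Multiset.count_replicate]
  have hc2 : ∀ x, M₂.count x = if x ∈ A then (-c x).toNat else 0 := by
    intro x
    rw [hM₂, Multiset.count_sum']
    simp [Multiset.count_replicate]
  have hm1 : ∀ x ∈ M₁, x ∈ A := by
    intro x hx
    by_contra hcon
    rw [← Multiset.count_pos, hc1] at hx
    simp [hcon] at hx
  have hm2 : ∀ x ∈ M₂, x ∈ A := by
    intro x hx
    by_contra hcon
    rw [← Multiset.count_pos, hc2] at hx
    simp [hcon] at hx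
  have hcard : ((Multiset.card M₁ + Multiset.card M₂ : ℕ) : ℤ) = ∑ a ∈ A, |c a| := by
    rw [hM₁, hM₂, Multiset.card_sum, Multiset.card_sum]
    simp only [Multiset.card_replicate]
    rw [← Finset.sum_add_distrib]
    push_cast
    apply Finset.sum_congr rfl
    intro a _
    rw [abs_eq_max_neg]
    simp only [Int.ofNat_toNat]
    omega
  have hsum : M₁.sum = M₂.sum := by
    rw [hM₁, hM₂, Multiset.sum_sum, Multiset.sum_sum]
    simp only [Multiset.sum_replicate]
    rw [← sub_eq_zero, ← Finset.sum_sub_distrib, ← h3]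
    apply Finset.sum_congr rfl
    intro a _
    rw [← natCast_zsmul, ← natCast_zsmul, ← sub_smul]
    congr 1
    simp only [Int.ofNat_toNat]
    omega
  have heq := h M₁ M₂ hm1 hm2 (by
    have : ((Multiset.card M₁ + Multiset.card M₂ : ℕ) : ℤ) ≤ t := by rw [hcard]; exact h2
    exact_mod_cast this) hsum
  have hzero : ∀ a ∈ A, c a = 0 := by
    intro a ha
    have e := congrArg (Multiset.count a) heq
    rw [hc1, hc2] at e
    simp only [ha, if_true] at e
    omega
  have : ∑ a ∈ A, |c a| = 0 := by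
    apply Finset.sum_eq_zero
    intro a ha
    rw [hzero a ha]; simp
  omega

/-- the unit vector attached to `s` or minus the unit vector attached to `-s` -/
def sv {n : ℕ} (A : Finset (ZMod n)) (s : ZMod n) (x : ZMod n) : ℤ :=
  if s ∈ A then (if x = s then 1 else 0) else (if x = -s then -1 else 0)

section
variable {n t : ℕ} {A : Finset (ZMod n)}

lemma sum_abs_sv_le (s : ZMod n) : ∑ a ∈ A, |sv A s a| ≤ 1 := by
  unfold sv
  by_cases h : s ∈ A
  · simp only [h, if_true]
    have : ∀ a ∈ A, |if a = s then (1 : ℤ) else 0| = if a = s then 1 else 0 := by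
      intro a _; split_ifs <;> simp
    rw [Finset.sum_congr rfl this, Finset.sum_ite_eq' A s]
    split_ifs <;> simp
  · simp only [h, if_false]
    have : ∀ a ∈ A, |if a = -s then (-1 : ℤ) else 0| = if a = -s then 1 else 0 := by
      intro a _; split_ifs <;> simp
    rw [Finset.sum_congr rfl this, Finset.sum_ite_eq' A (-s)]
    split_ifs <;> simp

lemma sum_sv_smul {s : ZMod n} (hs : s ∈ A ∨ -s ∈ A) : ∑ a ∈ A, sv A s a • a = s := by
  unfold sv
  by_cases h : s ∈ A
  · simp [h]
  · have h' : -s ∈ A := by tauto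
    simp only [h, if_false]
    have : ∀ a ∈ A, (if a = -s then (-1 : ℤ) else 0) • a = if a = -s then s else 0 := by
      intro a _
      split_ifs with h1
      · rw [h1]; simp
      · simp
    rw [Finset.sum_congr rfl this, Finset.sum_ite_eq' A (-s)]
    simp [h']

lemma sum_sv_odd {s : ZMod n} (hs : s ∈ A ∨ -s ∈ A) : Odd (∑ a ∈ A, sv A s a) := by
  unfold sv
  by_cases h : s ∈ A
  · simp only [h, if_true]
    rw [Finset.sum_ite_eq' A s]
    simp [h]
  · have h' : -s ∈ A := by tauto
    simp only [h, if_false]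
    rw [Finset.sum_ite_eq' A (-s)]
    simp [h']

lemma list_sv_zero (hA : TIndep n t A) (l : List (ZMod n)) (hl : ∀ s ∈ l, s ∈ A ∨ -s ∈ A)
    (hlen : l.length ≤ t) (hsum : l.sum = 0) : ∀ a ∈ A, (l.map (fun s => sv A s a)).sum = 0 := by
  set c : ZMod n → ℤ := fun a => (l.map (fun s => sv A s a)).sum with hc
  have h1 : ∑ a ∈ A, |c a| ≤ l.length := by
    rw [hc]
    clear hsum hlen hl hc
    induction l with
    | nil => simp
    | cons s l ih =>
      simp only [List.map_cons, List.sum_cons, List.length_cons]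
      calc ∑ a ∈ A, |sv A s a + (l.map (fun s => sv A s a)).sum|
          ≤ ∑ a ∈ A, (|sv A s a| + |(l.map (fun s => sv A s a)).sum|) :=
            Finset.sum_le_sum (fun a _ => abs_add_le _ _)
        _ = ∑ a ∈ A, |sv A s a| + ∑ a ∈ A, |(l.map (fun s => sv A s a)).sum| := Finset.sum_add_distrib
        _ ≤ 1 + l.length := add_le_add (sum_abs_sv_le s) ih
        _ = _ := by push_cast; ring
  have h2 : ∑ a ∈ A, c a • a = l.sum := by
    rw [hc]
    clear hsum hlen h1 hc
    induction l with
    | nil => simp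
    | cons s l ih =>
      simp only [List.map_cons, List.sum_cons]
      rw [← ih (fun s hs => hl s (List.mem_cons_of_mem _ hs))]
      rw [← sum_sv_smul (hl s List.mem_cons_self), ← Finset.sum_add_distrib]
      apply Finset.sum_congr rfl
      intro a _
      rw [sum_sv_smul (hl s List.mem_cons_self), add_smul]
  have h3 : ¬ (1 ≤ ∑ a ∈ A, |c a|) := by
    intro hcon
    exact hA c hcon (h1.trans (by exact_mod_cast hlen)) (by rw [h2, hsum])
  have h4 : ∑ a ∈ A, |c a| = 0 := by
    have : 0 ≤ ∑ a ∈ A, |c a| := Finset.sum_nonneg (fun _ _ => abs_nonneg _)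
    omega
  intro a ha
  have := (Finset.sum_eq_zero_iff_of_nonneg (fun a _ => abs_nonneg (c a))).mp h4 a ha
  exact abs_eq_zero.mp this

end

end Pool.Agent.MP_364e44_co
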