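import Mathlib

/-!
Sidon sets in the multiplicative group of a field with `p ^ 2` elements, `p` an odd prime.
-/

open Finset

namespace Pool.Agent.MP_364e44_co.OddP

section
variable {K : Type*} [Field K] [Fintype K] [DecidableEq K] {p : ℕ}

/-- the elements `v` with `v ^ p = - v` -/
def WW (K : Type*) [Field K] [Fintype K] [DecidableEq K] (p : ℕ) : Finset K :=
  {v : K | v ^ p = -v}

lemma mem_WW {v : K} : v ∈ WW K p ↔ v ^ p = -v := by simp [WW]

omit [Fintype K] [DecidableEq K] in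
lemma add_pow_q [Fact p.Prime] [CharP K p] (x y : K) : (x + y) ^ p = x ^ p + y ^ p :=
  add_pow_char x y p

omit [Fintype K] [DecidableEq K] in
lemma neg_pow_q (hp : Odd p) (x : K) : (-x) ^ p = -(x ^ p) := Odd.neg_pow hp x

lemma card_WW [Fact p.Prime] [CharP K p] (hp : Odd p) (hcard : Fintype.card K = p ^ 2) :
    p ≤ #(WW K p) := by
  have hq : 1 < p := (Fact.out : p.Prime).one_lt
  let φ : K → K := fun x => x ^ p + x
  have himg : #(Finset.univ.image φ) ≤ p := by
    have hsub : Finset.univ.image φ ⊆ (Polynomial.X ^ p - Polynomial.X : Polynomial K).roots.toFinset := by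
      intro y hy
      rw [Finset.mem_image] at hy
      obtain ⟨x, -, rfl⟩ := hy
      rw [Multiset.mem_toFinset, Polynomial.mem_roots (FiniteField.X_pow_card_sub_X_ne_zero K hq)]
      simp only [Polynomial.IsRoot.def, Polynomial.eval_sub, Polynomial.eval_pow, Polynomial.eval_X, φ]
      rw [add_pow_q, ← pow_mul, ← sq, ← hcard, FiniteField.pow_card]
      ring
    refine (Finset.card_le_card hsub).trans ?_
    refine (Multiset.toFinset_card_le _).trans ?_
    refine (Polynomial.card_roots' _).trans ?_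
    rw [FiniteField.X_pow_card_sub_X_natDegree_eq K hq]
  have hfib : ∀ a ∈ (Finset.univ : Finset K).image φ, #{x ∈ (Finset.univ : Finset K) | φ x = a} ≤ #(WW K p) := by
    intro a ha
    rw [Finset.mem_image] at ha
    obtain ⟨x0, -, rfl⟩ := ha
    apply Finset.card_le_card_of_injOn (fun x => x - x0)
    · intro x hx
      simp only [Finset.coe_filter, Finset.mem_univ, true_and, Set.mem_ofPred_eq, φ] at hx
      simp only [Finset.mem_coe]
      rw [mem_WW, sub_eq_add_neg, add_pow_q, neg_pow_q hp]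
      linear_combination hx
    · intro x _ y _ hxy
      simpa using hxy
  have h := Finset.card_le_mul_card_image (Finset.univ : Finset K) #(WW K p) hfib
  rw [Finset.card_univ, hcard] at h
  have h2 : p ^ 2 ≤ #(WW K p) * p := h.trans (Nat.mul_le_mul_left _ himg)
  rw [sq] at h2
  exact Nat.le_of_mul_le_mul_right h2 (by omega)

omit [Fintype K] [DecidableEq K] in
lemma two_ne_zero' [Fact p.Prime] [CharP K p] (hp : Odd p) : (2 : K) ≠ 0 := by
  intro h
  have h1 : ((2 : ℕ) : K) = 0 := by exact_mod_cast h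
  rw [CharP.cast_eq_zero_iff K p 2] at h1
  have h2 : p ≤ 2 := Nat.le_of_dvd (by norm_num) h1
  have h3 := (Fact.out : p.Prime).two_le
  have h4 : p = 2 := by omega
  rw [h4] at hp
  exact absurd hp (by decide)

lemma WW_inter [Fact p.Prime] [CharP K p] (hp : Odd p) {x : K} (h1 : x ∈ WW K p) (h2 : x ^ p = x) :
    x = 0 := by
  rw [mem_WW] at h1
  have : 2 * x = 0 := by linear_combination h2.symm.trans h1
  exact (mul_eq_zero.mp this).resolve_left (two_ne_zero' hp)

lemma WW_mul {v w : K} (hv : v ∈ WW K p) (hw : w ∈ WW K p) : (v * w) ^ p = v * w := by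
  rw [mem_WW] at hv hw
  rw [mul_pow, hv, hw]; ring

lemma WW_add [Fact p.Prime] [CharP K p] {v w : K} (hv : v ∈ WW K p) (hw : w ∈ WW K p) :
    v + w ∈ WW K p := by
  rw [mem_WW] at hv hw ⊢
  rw [add_pow_q, hv, hw]; ring

lemma WW_neg (hp : Odd p) {v : K} (hv : v ∈ WW K p) : -v ∈ WW K p := by
  rw [mem_WW] at hv ⊢
  rw [neg_pow_q hp, hv]

lemma one_add_ne [Fact p.Prime] [CharP K p] (hp : Odd p) {v : K} (hv : v ∈ WW K p) : 1 + v ≠ 0 := by
  intro h
  have hv' : v = -1 := by linear_combination h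
  have : v = 0 := WW_inter hp hv (by rw [hv', neg_pow_q hp, one_pow])
  rw [this] at hv'
  have : (1 : K) = 0 := by linear_combination hv'
  exact one_ne_zero this

/-- the multiplicative Sidon property -/
lemma sidon [Fact p.Prime] [CharP K p] (hp : Odd p) {v₁ v₂ v₃ v₄ : K} (h₁ : v₁ ∈ WW K p)
    (h₂ : v₂ ∈ WW K p) (h₃ : v₃ ∈ WW K p)
    (h₄ : v₄ ∈ WW K p) (h : (1 + v₁) * (1 + v₂) = (1 + v₃) * (1 + v₄)) :
    (v₁ = v₃ ∧ v₂ = v₄) ∨ (v₁ = v₄ ∧ v₂ = v₃) := by
  have hs : v₁ + v₂ + (-v₃ + -v₄) ∈ WW K p := WW_add (WW_add h₁ h₂) (WW_add (WW_neg hp h₃) (WW_neg hp h₄))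
  have hf : (v₃ * v₄ + -(v₁ * v₂)) ^ p = v₃ * v₄ + -(v₁ * v₂) := by
    rw [add_pow_q, neg_pow_q hp, WW_mul h₃ h₄, WW_mul h₁ h₂]
  have h0 : v₁ + v₂ + (-v₃ + -v₄) = v₃ * v₄ + -(v₁ * v₂) := by linear_combination h
  have e1 : v₁ + v₂ + (-v₃ + -v₄) = 0 := WW_inter hp hs (by rw [h0, hf])
  have e2 : v₃ * v₄ + -(v₁ * v₂) = 0 := h0 ▸ e1
  have key : (v₁ - v₃) * (v₁ - v₄) = 0 := by linear_combination v₁ * e1 + e2
  rcases mul_eq_zero.mp key with h | h
  · left
    have h' : v₁ = v₃ := sub_eq_zero.mp h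
    refine ⟨h', ?_⟩
    rw [h'] at e1; linear_combination e1
  · right
    have h' : v₁ = v₄ := sub_eq_zero.mp h
    refine ⟨h', ?_⟩
    rw [h'] at e1; linear_combination e1

end

/-- An additive Sidon set of size `p` in `ZMod (p ^ 2 - 1)`, `p` an odd prime. -/
theorem exists_sidon (p : ℕ) (hpp : p.Prime) (hp : Odd p) : ∃ T : Finset (ZMod (p ^ 2 - 1)),
    p ≤ #T ∧
    (∀ a ∈ T, ∀ b ∈ T, ∀ c ∈ T, ∀ d ∈ T, a + b = c + d → (a = c ∧ b = d) ∨ (a = d ∧ b = c)) := by
  classical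
  have hF : Fact p.Prime := ⟨hpp⟩
  let K := GaloisField p 2
  have hfin : Fintype K := Fintype.ofFinite K
  have hcard : Fintype.card K = p ^ 2 := by
    rw [← Nat.card_eq_fintype_card, GaloisField.card p 2 (by norm_num)]
  have hcardU : Nat.card Kˣ = p ^ 2 - 1 := by
    rw [Nat.card_eq_fintype_card, Fintype.card_units, hcard]
  have hcyc : IsCyclic Kˣ := inferInstance
  obtain ⟨e⟩ : Nonempty (Multiplicative (ZMod (p ^ 2 - 1)) ≃* Kˣ) := by
    rw [← hcardU]; exact ⟨zmodCyclicMulEquiv hcyc⟩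
  -- discrete logarithm
  let dl : K → ZMod (p ^ 2 - 1) := fun x =>
    if h : x ≠ 0 then Multiplicative.toAdd (e.symm (Units.mk0 x h)) else 0
  have dl_mul : ∀ x y : K, x ≠ 0 → y ≠ 0 → dl (x * y) = dl x + dl y := by
    intro x y hx hy
    simp only [dl, ne_eq, mul_eq_zero, hx, hy, or_self, not_false_eq_true, dif_pos]
    rw [← toAdd_mul, ← map_mul]
    congr 2
    ext; rfl
  have dl_inj : ∀ x y : K, x ≠ 0 → y ≠ 0 → dl x = dl y → x = y := by
    intro x y hx hy h
    simp only [dl, ne_eq, hx, hy, not_false_eq_true, dif_pos] at h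
    have h1 : e.symm (Units.mk0 x hx) = e.symm (Units.mk0 y hy) := Multiplicative.toAdd.injective h
    have h2 := e.symm.injective h1
    exact congrArg Units.val h2
  refine ⟨(WW K p).image (fun v => dl (1 + v)), ?_, ?_⟩
  · rw [Finset.card_image_of_injOn]
    · exact card_WW hp hcard
    · intro v hv w hw hvw
      have := dl_inj _ _ (one_add_ne hp hv) (one_add_ne hp hw) hvw
      exact add_left_cancel this
  · intro a ha b hb c hc d hd h
    rw [Finset.mem_image] at ha hb hc hd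
    obtain ⟨v₁, h₁, rfl⟩ := ha
    obtain ⟨v₂, h₂, rfl⟩ := hb
    obtain ⟨v₃, h₃, rfl⟩ := hc
    obtain ⟨v₄, h₄, rfl⟩ := hd
    have n₁ := one_add_ne hp h₁
    have n₂ := one_add_ne hp h₂
    have n₃ := one_add_ne hp h₃
    have n₄ := one_add_ne hp h₄
    rw [← dl_mul _ _ n₁ n₂, ← dl_mul _ _ n₃ n₄] at h
    have h' := dl_inj _ _ (mul_ne_zero n₁ n₂) (mul_ne_zero n₃ n₄) h
    rcases sidon hp h₁ h₂ h₃ h₄ h' with ⟨e1, e2⟩ | ⟨e1, e2⟩
    · left; rw [e1, e2]; exact ⟨rfl, rfl⟩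
    · right; rw [e1, e2]; exact ⟨rfl, rfl⟩

end Pool.Agent.MP_364e44_co.OddP
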