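import Mathlib

/-!
Sidon sets in the multiplicative group of a field with `q ^ 2` elements, `q = 3 ^ k`.
-/

open Finset

namespace Pool.Agent.MP_364e44_co

section
variable {K : Type*} [Field K] [Fintype K] [DecidableEq K] [CharP K 3] {k : ℕ}

/-- the elements `v` with `v ^ q = - v` -/
def VV (K : Type*) [Field K] [Fintype K] [DecidableEq K] (k : ℕ) : Finset K :=
  {v : K | v ^ (3 ^ k) = -v}

omit [CharP K 3] in
lemma mem_VV {v : K} : v ∈ VV K k ↔ v ^ (3 ^ k) = -v := by simp [VV]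

omit [Fintype K] [DecidableEq K] in
lemma add_pow_q (x y : K) : (x + y) ^ (3 ^ k) = x ^ (3 ^ k) + y ^ (3 ^ k) :=
  add_pow_char_pow x y 3 k

omit [Fintype K] [DecidableEq K] [CharP K 3] in
lemma neg_pow_q (x : K) : (-x) ^ (3 ^ k) = -(x ^ (3 ^ k)) :=
  Odd.neg_pow (Odd.pow (by decide)) x

lemma card_VV (hk : 0 < k) (hcard : Fintype.card K = (3 ^ k) ^ 2) : 3 ^ k ≤ #(VV K k) := by
  have hq : 1 < 3 ^ k := Nat.one_lt_pow hk.ne' (by norm_num)
  let φ : K → K := fun x => x ^ (3 ^ k) + x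
  have himg : #(Finset.univ.image φ) ≤ 3 ^ k := by
    have hsub : Finset.univ.image φ ⊆ (Polynomial.X ^ (3 ^ k) - Polynomial.X : Polynomial K).roots.toFinset := by
      intro y hy
      rw [Finset.mem_image] at hy
      obtain ⟨x, -, rfl⟩ := hy
      rw [Multiset.mem_toFinset, Polynomial.mem_roots (FiniteField.X_pow_card_sub_X_ne_zero K hq)]
      simp only [Polynomial.IsRoot.def, Polynomial.eval_sub, Polynomial.eval_pow, Polynomial.eval_X, φ]
      rw [add_pow_q, ← pow_mul, ← sq, ← hcard, FiniteField.pow_card]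
      ring
    refine (Finset.card_le_card hsub).trans ?_
    refine (Multiset.toFinset_card_le _).trans ?_
    refine (Polynomial.card_roots' _).trans ?_
    rw [FiniteField.X_pow_card_sub_X_natDegree_eq K hq]
  have hfib : ∀ a ∈ (Finset.univ : Finset K).image φ, #{x ∈ (Finset.univ : Finset K) | φ x = a} ≤ #(VV K k) := by
    intro a ha
    rw [Finset.mem_image] at ha
    obtain ⟨x0, -, rfl⟩ := ha
    apply Finset.card_le_card_of_injOn (fun x => x - x0)
    · intro x hx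
      simp only [Finset.coe_filter, Finset.mem_univ, true_and, Set.mem_ofPred_eq, φ] at hx
      simp only [Finset.mem_coe]
      rw [mem_VV, sub_eq_add_neg, add_pow_q, neg_pow_q]
      linear_combination hx
    · intro x _ y _ hxy
      simpa using hxy
  have h := Finset.card_le_mul_card_image (Finset.univ : Finset K) #(VV K k) hfib
  rw [Finset.card_univ, hcard] at h
  have h2 : (3 ^ k) ^ 2 ≤ #(VV K k) * 3 ^ k := h.trans (Nat.mul_le_mul_left _ himg)
  rw [sq] at h2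
  exact Nat.le_of_mul_le_mul_right h2 (by positivity)

omit [Fintype K] [DecidableEq K] in
lemma two_ne_zero' : (2 : K) ≠ 0 := by
  have h3 : (3 : K) = 0 := by
    have := CharP.cast_eq_zero K 3
    exact_mod_cast this
  intro h
  have : (1 : K) = 0 := by linear_combination h3 - h
  exact one_ne_zero this

lemma VV_inter {x : K} (h1 : x ∈ VV K k) (h2 : x ^ (3 ^ k) = x) : x = 0 := by
  rw [mem_VV] at h1
  have : 2 * x = 0 := by linear_combination h2.symm.trans h1
  exact (mul_eq_zero.mp this).resolve_left two_ne_zero'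

omit [CharP K 3] in
lemma VV_mul {v w : K} (hv : v ∈ VV K k) (hw : w ∈ VV K k) : (v * w) ^ (3 ^ k) = v * w := by
  rw [mem_VV] at hv hw
  rw [mul_pow, hv, hw]; ring

lemma VV_add {v w : K} (hv : v ∈ VV K k) (hw : w ∈ VV K k) : v + w ∈ VV K k := by
  rw [mem_VV] at hv hw ⊢
  rw [add_pow_q, hv, hw]; ring

omit [CharP K 3] in
lemma VV_neg {v : K} (hv : v ∈ VV K k) : -v ∈ VV K k := by
  rw [mem_VV] at hv ⊢
  rw [neg_pow_q, hv]

omit [CharP K 3] in
lemma VV_inv {v : K} (hv : v ∈ VV K k) : v⁻¹ ∈ VV K k := by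
  rw [mem_VV] at hv ⊢
  rw [inv_pow, hv, inv_neg]

lemma one_add_ne {v : K} (hv : v ∈ VV K k) : 1 + v ≠ 0 := by
  intro h
  have hv' : v = -1 := by linear_combination h
  have : v = 0 := VV_inter hv (by rw [hv', neg_pow_q, one_pow])
  rw [this] at hv'
  have : (1 : K) = 0 := by linear_combination hv'
  exact one_ne_zero this

lemma VV_split {s f : K} (hs : s ∈ VV K k) (hf : f ^ (3 ^ k) = f) (h : s = f) : s = 0 ∧ f = 0 := by
  have h0 : s = 0 := VV_inter hs (by rw [h, hf])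
  exact ⟨h0, h ▸ h0⟩

/-- the multiplicative Sidon property -/
lemma sidon {v₁ v₂ v₃ v₄ : K} (h₁ : v₁ ∈ VV K k) (h₂ : v₂ ∈ VV K k) (h₃ : v₃ ∈ VV K k)
    (h₄ : v₄ ∈ VV K k) (h : (1 + v₁) * (1 + v₂) = (1 + v₃) * (1 + v₄)) :
    (v₁ = v₃ ∧ v₂ = v₄) ∨ (v₁ = v₄ ∧ v₂ = v₃) := by
  have hs : v₁ + v₂ + (-v₃ + -v₄) ∈ VV K k := VV_add (VV_add h₁ h₂) (VV_add (VV_neg h₃) (VV_neg h₄))
  have hf : (v₃ * v₄ + -(v₁ * v₂)) ^ (3 ^ k) = v₃ * v₄ + -(v₁ * v₂) := by
    rw [add_pow_q, neg_pow_q, VV_mul h₃ h₄, VV_mul h₁ h₂]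
  obtain ⟨e1, e2⟩ := VV_split hs hf (by linear_combination h)
  have key : (v₁ - v₃) * (v₁ - v₄) = 0 := by linear_combination v₁ * e1 + e2
  rcases mul_eq_zero.mp key with h | h
  · left
    have h' : v₁ = v₃ := sub_eq_zero.mp h
    refine ⟨h', ?_⟩
    rw [h'] at e1; linear_combination e1
  · right
    have h' : v₁ = v₄ := sub_eq_zero.mp h
    refine ⟨h', ?_⟩
    rw [h'] at e1; linear_combination e1

/-- no product of three elements `1 + v`, `v ≠ 0`, equals one (this uses characteristic three) -/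
lemma no_triple {u v w : K} (hu : u ∈ VV K k) (hv : v ∈ VV K k) (hw : w ∈ VV K k) (hu0 : u ≠ 0)
    (hv0 : v ≠ 0) (hw0 : w ≠ 0) : (1 + u) * (1 + v) * (1 + w) ≠ 1 := by
  intro h
  have h3 : (3 : K) = 0 := by
    have := CharP.cast_eq_zero K 3
    exact_mod_cast this
  have huvw : u * v * w ∈ VV K k := by
    have := VV_mul hu hv
    rw [mem_VV] at hw ⊢
    rw [mul_pow, this, hw]; ring
  have hs : u + v + (w + u * v * w) ∈ VV K k := VV_add (VV_add hu hv) (VV_add hw huvw)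
  have hf : (-(u * v) + (-(v * w) + -(w * u))) ^ (3 ^ k) = -(u * v) + (-(v * w) + -(w * u)) := by
    rw [add_pow_q, add_pow_q, neg_pow_q, neg_pow_q, neg_pow_q, VV_mul hu hv, VV_mul hv hw, VV_mul hw hu]
  obtain ⟨e1, e2⟩ := VV_split hs hf (by linear_combination h)
  -- divide
  have f1 : w⁻¹ + u⁻¹ + v⁻¹ = 0 := by
    field_simp
    linear_combination -e2
  have f2 : u⁻¹ * v⁻¹ + v⁻¹ * w⁻¹ + w⁻¹ * u⁻¹ = -1 := by
    field_simp
    linear_combination e1
  have f3 : w⁻¹ = -u⁻¹ - v⁻¹ := by linear_combination f1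
  rw [f3] at f2
  have f4 : (u⁻¹ + -v⁻¹ - 1) * (u⁻¹ + -v⁻¹ + 1) = 0 := by
    linear_combination -f2 - u⁻¹ * v⁻¹ * h3
  have hd : u⁻¹ + -v⁻¹ ∈ VV K k := VV_add (VV_inv hu) (VV_neg (VV_inv hv))
  rcases mul_eq_zero.mp f4 with g | g
  · have g' : u⁻¹ + -v⁻¹ = 1 := by linear_combination g
    have := VV_inter hd (by rw [g', one_pow])
    rw [this] at g'
    exact one_ne_zero g'.symm
  · have g' : u⁻¹ + -v⁻¹ = -1 := by linear_combination g
    have := VV_inter hd (by rw [g', neg_pow_q, one_pow])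
    rw [this] at g'
    have : (1 : K) = 0 := by linear_combination g'
    exact one_ne_zero this

end

/-- A packaged version: an additive Sidon set of size `q` in `ZMod (q ^ 2 - 1)`, `q = 3 ^ k`, with the
additional property that, after removing one element, no three elements sum to zero. -/
theorem exists_sidon (k : ℕ) (hk : 0 < k) : ∃ T : Finset (ZMod ((3 ^ k) ^ 2 - 1)), ∃ t₀ : ZMod ((3 ^ k) ^ 2 - 1),
    3 ^ k ≤ #T ∧
    (∀ a ∈ T, ∀ b ∈ T, ∀ c ∈ T, ∀ d ∈ T, a + b = c + d → (a = c ∧ b = d) ∨ (a = d ∧ b = c)) ∧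
    (∀ a ∈ T.erase t₀, ∀ b ∈ T.erase t₀, ∀ c ∈ T.erase t₀, a + b + c ≠ 0) := by
  classical
  have hF : Fact (Nat.Prime 3) := ⟨Nat.prime_three⟩
  have h2k : 2 * k ≠ 0 := by omega
  let K := GaloisField 3 (2 * k)
  have hfin : Fintype K := Fintype.ofFinite K
  have hcard : Fintype.card K = (3 ^ k) ^ 2 := by
    rw [← Nat.card_eq_fintype_card, GaloisField.card 3 (2 * k) h2k, ← pow_mul, mul_comm]
  have hcardU : Nat.card Kˣ = (3 ^ k) ^ 2 - 1 := by
    rw [Nat.card_eq_fintype_card, Fintype.card_units, hcard]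
  have hcyc : IsCyclic Kˣ := inferInstance
  obtain ⟨e⟩ : Nonempty (Multiplicative (ZMod ((3 ^ k) ^ 2 - 1)) ≃* Kˣ) := by
    rw [← hcardU]; exact ⟨zmodCyclicMulEquiv hcyc⟩
  -- discrete logarithm
  let dl : K → ZMod ((3 ^ k) ^ 2 - 1) := fun x =>
    if h : x ≠ 0 then Multiplicative.toAdd (e.symm (Units.mk0 x h)) else 0
  have dl_mul : ∀ x y : K, x ≠ 0 → y ≠ 0 → dl (x * y) = dl x + dl y := by
    intro x y hx hy
    simp only [dl, ne_eq, mul_eq_zero, hx, hy, or_self, not_false_eq_true, dif_pos]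
    rw [← toAdd_mul, ← map_mul]
    congr 2
    ext; rfl
  have dl_inj : ∀ x y : K, x ≠ 0 → y ≠ 0 → dl x = dl y → x = y := by
    intro x y hx hy h
    simp only [dl, ne_eq, hx, hy, not_false_eq_true, dif_pos] at h
    have h1 : e.symm (Units.mk0 x hx) = e.symm (Units.mk0 y hy) := Multiplicative.toAdd.injective h
    have h2 := e.symm.injective h1
    exact congrArg Units.val h2
  have dl_one : dl 1 = 0 := by
    have := dl_mul 1 1 one_ne_zero one_ne_zero
    rw [mul_one] at this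
    exact left_eq_add.mp this
  refine ⟨(VV K k).image (fun v => dl (1 + v)), dl 1, ?_, ?_, ?_⟩
  · rw [Finset.card_image_of_injOn]
    · exact card_VV hk hcard
    · intro v hv w hw hvw
      have := dl_inj _ _ (one_add_ne hv) (one_add_ne hw) hvw
      exact add_left_cancel this
  · intro a ha b hb c hc d hd h
    rw [Finset.mem_image] at ha hb hc hd
    obtain ⟨v₁, h₁, rfl⟩ := ha
    obtain ⟨v₂, h₂, rfl⟩ := hb
    obtain ⟨v₃, h₃, rfl⟩ := hc
    obtain ⟨v₄, h₄, rfl⟩ := hd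
    have n₁ := one_add_ne h₁
    have n₂ := one_add_ne h₂
    have n₃ := one_add_ne h₃
    have n₄ := one_add_ne h₄
    rw [← dl_mul _ _ n₁ n₂, ← dl_mul _ _ n₃ n₄] at h
    have h' := dl_inj _ _ (mul_ne_zero n₁ n₂) (mul_ne_zero n₃ n₄) h
    rcases sidon h₁ h₂ h₃ h₄ h' with ⟨e1, e2⟩ | ⟨e1, e2⟩
    · left; rw [e1, e2]; exact ⟨rfl, rfl⟩
    · right; rw [e1, e2]; exact ⟨rfl, rfl⟩
  · intro a ha b hb c hc h
    rw [Finset.mem_erase, Finset.mem_image] at ha hb hc
    obtain ⟨ha0, v₁, h₁, rfl⟩ := ha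
    obtain ⟨hb0, v₂, h₂, rfl⟩ := hb
    obtain ⟨hc0, v₃, h₃, rfl⟩ := hc
    have n₁ := one_add_ne h₁
    have n₂ := one_add_ne h₂
    have n₃ := one_add_ne h₃
    rw [← dl_mul _ _ n₁ n₂, ← dl_mul _ _ (mul_ne_zero n₁ n₂) n₃, ← dl_one] at h
    have h' := dl_inj _ _ (mul_ne_zero (mul_ne_zero n₁ n₂) n₃) one_ne_zero h
    refine no_triple h₁ h₂ h₃ ?_ ?_ ?_ h'
    · rintro rfl; exact ha0 (by rw [add_zero])
    · rintro rfl; exact hb0 (by rw [add_zero])
    · rintro rfl; exact hc0 (by rw [add_zero])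

end Pool.Agent.MP_364e44_co
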