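import Mathlib
import Pool.Agent.MP_364e44_co.Basic
import Pool.Agent.MP_364e44_co.Field3

open Finset

namespace Pool.Agent.MP_364e44_co

lemma map_sum_const {G H : Type*} [AddCommMonoid G] [AddCommMonoidWithOne H] (φ : G →+ H) (M : Multiset G)
    (h : ∀ x ∈ M, φ x = 1) : φ M.sum = (Multiset.card M : H) := by
  induction M using Multiset.induction_on with
  | empty => simp
  | cons a M ih =>
    rw [Multiset.sum_cons, map_add, h a (Multiset.mem_cons_self a M),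
      ih (fun x hx => h x (Multiset.mem_cons_of_mem hx)), Multiset.card_cons]
    push_cast
    exact add_comm _ _

/-- case analysis for multisets of the same small cardinality -/
lemma multiset_eq_of_sidon {G : Type*} [AddCommGroup G] {A : Finset G}
    (hA : ∀ a ∈ A, ∀ b ∈ A, ∀ c ∈ A, ∀ d ∈ A, a + b = c + d → (a = c ∧ b = d) ∨ (a = d ∧ b = c))
    {M₁ M₂ : Multiset G} (h1 : ∀ x ∈ M₁, x ∈ A) (h2 : ∀ x ∈ M₂, x ∈ A)
    (hc : Multiset.card M₁ = Multiset.card M₂) (hc2 : Multiset.card M₁ ≤ 2) (hs : M₁.sum = M₂.sum) :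
    M₁ = M₂ := by
  interval_cases hcard : Multiset.card M₁
  · rw [Multiset.card_eq_zero] at hcard
    have : M₂ = 0 := Multiset.card_eq_zero.mp hc.symm
    rw [hcard, this]
  · obtain ⟨a, rfl⟩ := Multiset.card_eq_one.mp hcard
    obtain ⟨b, rfl⟩ := Multiset.card_eq_one.mp hc.symm
    simp only [Multiset.sum_singleton] at hs
    rw [hs]
  · obtain ⟨a, b, rfl⟩ := Multiset.card_eq_two.mp hcard
    obtain ⟨c, d, rfl⟩ := Multiset.card_eq_two.mp hc.symm
    simp only [Multiset.insert_eq_cons, Multiset.sum_cons, Multiset.sum_singleton] at hs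
    simp only [Multiset.insert_eq_cons, Multiset.mem_cons, Multiset.mem_singleton] at h1 h2
    rcases hA a (h1 a (Or.inl rfl)) b (h1 b (Or.inr rfl)) c (h2 c (Or.inl rfl)) d (h2 d (Or.inr rfl)) hs with
      ⟨rfl, rfl⟩ | ⟨rfl, rfl⟩
    · rfl
    · exact Multiset.pair_comm _ _

/-- From a Sidon set in `ZMod N` to a `5`-independent set in `ZMod (6 * N)`. -/
lemma five_indep (N : ℕ) [NeZero N] (T : Finset (ZMod N))
    (hT : ∀ a ∈ T, ∀ b ∈ T, ∀ c ∈ T, ∀ d ∈ T, a + b = c + d → (a = c ∧ b = d) ∨ (a = d ∧ b = c)) :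
    ∃ A : Finset (ZMod (6 * N)), TIndep (6 * N) 5 A ∧ #A = #T := by
  classical
  let f : ZMod N → ZMod (6 * N) := fun x => ((1 + 6 * x.val : ℕ) : ZMod (6 * N))
  have hNpos : 0 < N := Nat.pos_of_ne_zero (NeZero.ne N)
  have finj : Function.Injective f := by
    intro x y h
    simp only [f] at h
    rw [ZMod.natCast_eq_natCast_iff'] at h
    have h1 : (1 + 6 * x.val) ≡ (1 + 6 * y.val) [MOD 6 * N] := h
    have h2 : 6 * x.val ≡ 6 * y.val [MOD 6 * N] := Nat.ModEq.add_left_cancel' 1 h1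
    have h3 : x.val ≡ y.val [MOD N] := Nat.ModEq.mul_left_cancel' (by norm_num) h2
    have h4 : x.val = y.val := Nat.ModEq.eq_of_lt_of_lt h3 (ZMod.val_lt x) (ZMod.val_lt y)
    exact ZMod.val_injective N h4
  refine ⟨T.image f, ?_, Finset.card_image_of_injective _ finj⟩
  have hφ : ∀ x ∈ T.image f, (ZMod.castHom (Dvd.intro N rfl : 6 ∣ 6 * N) (ZMod 6)).toAddMonoidHom x = 1 := by
    intro x hx
    rw [Finset.mem_image] at hx
    obtain ⟨y, -, rfl⟩ := hx
    simp only [f]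
    show (ZMod.castHom (Dvd.intro N rfl : 6 ∣ 6 * N) (ZMod 6)) _ = 1
    rw [map_natCast]
    push_cast
    have : (6 : ZMod 6) = 0 := rfl
    rw [this]; simp
  have hA : ∀ a ∈ T.image f, ∀ b ∈ T.image f, ∀ c ∈ T.image f, ∀ d ∈ T.image f,
      a + b = c + d → (a = c ∧ b = d) ∨ (a = d ∧ b = c) := by
    intro a ha b hb c hc d hd h
    rw [Finset.mem_image] at ha hb hc hd
    obtain ⟨a', ha', rfl⟩ := ha
    obtain ⟨b', hb', rfl⟩ := hb
    obtain ⟨c', hc', rfl⟩ := hc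
    obtain ⟨d', hd', rfl⟩ := hd
    have h1 : ((1 + 6 * a'.val + (1 + 6 * b'.val) : ℕ) : ZMod (6 * N))
        = ((1 + 6 * c'.val + (1 + 6 * d'.val) : ℕ) : ZMod (6 * N)) := by
      simp only [f] at h
      exact_mod_cast h
    rw [ZMod.natCast_eq_natCast_iff] at h1
    have h2 : 2 + 6 * (a'.val + b'.val) ≡ 2 + 6 * (c'.val + d'.val) [MOD 6 * N] := by
      convert h1 using 1 <;> ring
    have h3 : 6 * (a'.val + b'.val) ≡ 6 * (c'.val + d'.val) [MOD 6 * N] := Nat.ModEq.add_left_cancel' 2 h2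
    have h4 : a'.val + b'.val ≡ c'.val + d'.val [MOD N] := Nat.ModEq.mul_left_cancel' (by norm_num) h3
    have h5 : a' + b' = c' + d' := by
      rw [← ZMod.natCast_eq_natCast_iff] at h4
      push_cast at h4
      simpa using h4
    rcases hT a' ha' b' hb' c' hc' d' hd' h5 with ⟨e1, e2⟩ | ⟨e1, e2⟩
    · left; rw [e1, e2]; exact ⟨rfl, rfl⟩
    · right; rw [e1, e2]; exact ⟨rfl, rfl⟩
  apply tindep_of_multiset
  intro M₁ M₂ h1 h2 hcard hsum
  have e1 := map_sum_const _ M₁ (fun x hx => hφ x (h1 x hx))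
  have e2 := map_sum_const _ M₂ (fun x hx => hφ x (h2 x hx))
  rw [hsum, e2] at e1
  rw [ZMod.natCast_eq_natCast_iff'] at e1
  have e3 : Multiset.card M₁ = Multiset.card M₂ := by omega
  exact multiset_eq_of_sidon hA h1 h2 e3 (by omega) hsum

/-- From a Sidon set without zero sums of three elements in `ZMod N`, `N` coprime to `3`, to a
`4`-independent set in `ZMod (3 * N)`. -/
lemma four_indep (N : ℕ) [NeZero N] (hcop : Nat.Coprime 3 N) (T : Finset (ZMod N))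
    (hT : ∀ a ∈ T, ∀ b ∈ T, ∀ c ∈ T, ∀ d ∈ T, a + b = c + d → (a = c ∧ b = d) ∨ (a = d ∧ b = c))
    (hT3 : ∀ a ∈ T, ∀ b ∈ T, ∀ c ∈ T, a + b + c ≠ 0) :
    ∃ A : Finset (ZMod (3 * N)), TIndep (3 * N) 4 A ∧ #A = #T := by
  classical
  let e := ZMod.chineseRemainder hcop
  let f : ZMod N → ZMod (3 * N) := fun x => e.symm (1, x)
  have finj : Function.Injective f := by
    intro x y h
    have := e.symm.injective h
    exact (Prod.ext_iff.mp this).2
  refine ⟨T.image f, ?_, Finset.card_image_of_injective _ finj⟩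
  let π₁ : ZMod (3 * N) →+ ZMod 3 := (AddMonoidHom.fst _ _).comp e.toAddMonoidHom
  let π₂ : ZMod (3 * N) →+ ZMod N := (AddMonoidHom.snd _ _).comp e.toAddMonoidHom
  have hπ₁ : ∀ x, π₁ (f x) = 1 := by
    intro x
    show (e (e.symm (1, x))).1 = 1
    rw [RingEquiv.apply_symm_apply]
  have hπ₂ : ∀ x, π₂ (f x) = x := by
    intro x
    show (e (e.symm (1, x))).2 = x
    rw [RingEquiv.apply_symm_apply]
  have hφ : ∀ x ∈ T.image f, π₁ x = 1 := by
    intro x hx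
    rw [Finset.mem_image] at hx
    obtain ⟨y, -, rfl⟩ := hx
    exact hπ₁ y
  have hA : ∀ a ∈ T.image f, ∀ b ∈ T.image f, ∀ c ∈ T.image f, ∀ d ∈ T.image f,
      a + b = c + d → (a = c ∧ b = d) ∨ (a = d ∧ b = c) := by
    intro a ha b hb c hc d hd h
    rw [Finset.mem_image] at ha hb hc hd
    obtain ⟨a', ha', rfl⟩ := ha
    obtain ⟨b', hb', rfl⟩ := hb
    obtain ⟨c', hc', rfl⟩ := hc
    obtain ⟨d', hd', rfl⟩ := hd
    have h1 := congrArg π₂ h
    rw [map_add, map_add, hπ₂, hπ₂, hπ₂, hπ₂] at h1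
    rcases hT a' ha' b' hb' c' hc' d' hd' h1 with ⟨e1, e2⟩ | ⟨e1, e2⟩
    · left; rw [e1, e2]; exact ⟨rfl, rfl⟩
    · right; rw [e1, e2]; exact ⟨rfl, rfl⟩
  have h3 : ∀ M : Multiset (ZMod (3 * N)), (∀ x ∈ M, x ∈ T.image f) → Multiset.card M = 3 → M.sum ≠ 0 := by
    intro M hM hc hs
    obtain ⟨a, b, c, rfl⟩ := Multiset.card_eq_three.mp hc
    have ga := hM a (by simp)
    have gb := hM b (by simp)
    have gc := hM c (by simp)
    rw [Finset.mem_image] at ga gb gc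
    obtain ⟨a', ha', ea⟩ := ga
    obtain ⟨b', hb', eb⟩ := gb
    obtain ⟨c', hc', ec⟩ := gc
    have h1 := congrArg π₂ hs
    simp only [Multiset.insert_eq_cons, Multiset.sum_cons, Multiset.sum_singleton, map_add, ← ea, ← eb,
      ← ec, hπ₂, map_zero] at h1
    exact hT3 a' ha' b' hb' c' hc' (by rw [← h1]; ring)
  apply tindep_of_multiset
  intro M₁ M₂ h1 h2 hcard hsum
  have e1 := map_sum_const π₁ M₁ (fun x hx => hφ x (h1 x hx))
  have e2 := map_sum_const π₁ M₂ (fun x hx => hφ x (h2 x hx))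
  rw [hsum, e2] at e1
  rw [ZMod.natCast_eq_natCast_iff'] at e1
  by_cases e3 : Multiset.card M₁ = Multiset.card M₂
  · exact multiset_eq_of_sidon hA h1 h2 e3 (by omega) hsum
  · exfalso
    have : (Multiset.card M₁ = 3 ∧ Multiset.card M₂ = 0) ∨ (Multiset.card M₁ = 0 ∧ Multiset.card M₂ = 3) := by
      omega
    rcases this with ⟨g1, g2⟩ | ⟨g1, g2⟩
    · rw [Multiset.card_eq_zero] at g2
      refine h3 M₁ h1 g1 ?_
      rw [hsum, g2, Multiset.sum_zero]
    · rw [Multiset.card_eq_zero] at g1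
      refine h3 M₂ h2 g2 ?_
      rw [← hsum, g1, Multiset.sum_zero]

lemma neZero_aux (k : ℕ) (hk : 0 < k) : NeZero ((3 ^ k) ^ 2 - 1) := by
  constructor
  have h1 : 3 ^ 1 ≤ 3 ^ k := Nat.pow_le_pow_right (by norm_num) hk
  have : (3 : ℕ) ^ 2 ≤ (3 ^ k) ^ 2 := Nat.pow_le_pow_left (by simpa using h1) 2
  omega

theorem tau_five_ge (k : ℕ) (hk : 0 < k) : 3 ^ k ≤ tau (6 * ((3 ^ k) ^ 2 - 1)) 5 := by
  have hne := neZero_aux k hk
  have hne2 : NeZero (6 * ((3 ^ k) ^ 2 - 1)) := ⟨Nat.mul_ne_zero (by norm_num) hne.out⟩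
  obtain ⟨T, t₀, h1, h2, -⟩ := exists_sidon k hk
  obtain ⟨A, hA, hcard⟩ := five_indep _ T h2
  calc 3 ^ k ≤ #T := h1
    _ = #A := hcard.symm
    _ ≤ _ := le_tau hA

theorem tau_four_ge (k : ℕ) (hk : 0 < k) : 3 ^ k - 1 ≤ tau (3 * ((3 ^ k) ^ 2 - 1)) 4 := by
  classical
  have hne := neZero_aux k hk
  have hne2 : NeZero (3 * ((3 ^ k) ^ 2 - 1)) := ⟨Nat.mul_ne_zero (by norm_num) hne.out⟩
  obtain ⟨T, t₀, h1, h2, h3⟩ := exists_sidon k hk
  have hcop : Nat.Coprime 3 ((3 ^ k) ^ 2 - 1) := by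
    have h4 : 1 ≤ (3 ^ k) ^ 2 := Nat.one_le_iff_ne_zero.mpr (by positivity)
    have h5 : 3 ∣ (3 ^ k) ^ 2 := by
      apply dvd_pow _ (by norm_num)
      exact dvd_pow_self 3 hk.ne'
    rw [Nat.Prime.coprime_iff_not_dvd Nat.prime_three]
    intro h6
    have := (Nat.dvd_sub h5 h6)
    have h7 : (3 ^ k) ^ 2 - ((3 ^ k) ^ 2 - 1) = 1 := by omega
    rw [h7] at this
    norm_num at this
  obtain ⟨A, hA, hcard⟩ := four_indep _ hcop (T.erase t₀) (by
    intro a ha b hb c hc d hd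
    exact h2 a (Finset.mem_of_mem_erase ha) b (Finset.mem_of_mem_erase hb) c (Finset.mem_of_mem_erase hc)
      d (Finset.mem_of_mem_erase hd)) h3
  calc 3 ^ k - 1 ≤ #T - 1 := Nat.sub_le_sub_right h1 1
    _ ≤ #(T.erase t₀) := Finset.pred_card_le_card_erase
    _ = #A := hcard.symm
    _ ≤ _ := le_tau hA

end Pool.Agent.MP_364e44_co
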