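import Mathlib
import Pool.Agent.MP_364e44_co.Basic
import Pool.Agent.MP_364e44_co.Lower
import Pool.Agent.MP_364e44_co.FieldP

/-!
A lower bound for `tau n 4` for every `n`: if `p` is an odd prime and `6 (p ^ 2 - 1) < n` then
`p - 1 ≤ tau n 4`.
-/

open Finset

namespace Pool.Agent.MP_364e44_co

/-- sums of integers of the open interval `(n / 12, 3 n / 12)` -/
lemma sum_bounds (n : ℕ) (M : Multiset ℕ) (h : ∀ x ∈ M, n + 1 ≤ 12 * x ∧ 12 * x + 1 ≤ 3 * n) :
    (n + 1) * Multiset.card M ≤ 12 * M.sum ∧ 12 * M.sum + Multiset.card M ≤ 3 * n * Multiset.card M := by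
  induction M using Multiset.induction_on with
  | empty => simp
  | cons a M ih =>
    have h1 := h a (Multiset.mem_cons_self a M)
    have h2 := ih (fun x hx => h x (Multiset.mem_cons_of_mem hx))
    rw [Multiset.card_cons, Multiset.sum_cons]
    constructor
    · calc (n + 1) * (Multiset.card M + 1) = (n + 1) * Multiset.card M + (n + 1) := by ring
        _ ≤ 12 * M.sum + 12 * a := add_le_add h2.1 h1.1
        _ = _ := by ring
    · calc 12 * (a + M.sum) + (Multiset.card M + 1) = (12 * M.sum + Multiset.card M) + (12 * a + 1) := by ring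
        _ ≤ 3 * n * Multiset.card M + 3 * n := add_le_add h2.2 h1.2
        _ = _ := by ring

lemma cast_val_sum {n : ℕ} [NeZero n] (M : Multiset (ZMod n)) :
    (((M.map ZMod.val).sum : ℕ) : ZMod n) = M.sum := by
  induction M using Multiset.induction_on with
  | empty => simp
  | cons a M ih =>
    rw [Multiset.map_cons, Multiset.sum_cons, Multiset.sum_cons, Nat.cast_add, ih, ZMod.natCast_zmod_val]

lemma cast_sum' {m : ℕ} {α : Type*} (f : α → ℕ) (M : Multiset α) :
    (((M.map f).sum : ℕ) : ZMod m) = (M.map (fun x => ((f x : ℕ) : ZMod m))).sum := by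
  induction M using Multiset.induction_on with
  | empty => simp
  | cons a M ih =>
    rw [Multiset.map_cons, Multiset.sum_cons, Multiset.map_cons, Multiset.sum_cons, Nat.cast_add, ih]

/-- From a Sidon set `T` in `ZMod m` without solutions of `a + b = c` to a `4`-independent set in
`ZMod n`, `6 m < n`: take the representatives of the elements of `T` in the interval
`(n / 12, 3 n / 12)`. -/
lemma four_indep_lift (n m : ℕ) [NeZero m] (hn : 6 * m < n) (T : Finset (ZMod m))
    (hT : ∀ a ∈ T, ∀ b ∈ T, ∀ c ∈ T, ∀ d ∈ T, a + b = c + d → (a = c ∧ b = d) ∨ (a = d ∧ b = c))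
    (hT3 : ∀ a ∈ T, ∀ b ∈ T, ∀ c ∈ T, a + b ≠ c) :
    ∃ A : Finset (ZMod n), TIndep n 4 A ∧ #A = #T := by
  classical
  have hmpos : 0 < m := Nat.pos_of_ne_zero (NeZero.ne m)
  have hnpos : 0 < n := by omega
  have hne : NeZero n := ⟨hnpos.ne'⟩
  -- the lift
  obtain ⟨u, hu⟩ : ∃ u : ℕ, u = n / 12 + 1 := ⟨_, rfl⟩
  let L : ZMod m → ℕ := fun t => u + (t - (u : ZMod m)).val
  have hL1 : ∀ t, n + 1 ≤ 12 * L t ∧ 12 * L t + 1 ≤ 3 * n := by
    intro t
    have h1 : (t - (u : ZMod m)).val < m := ZMod.val_lt _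
    simp only [L]
    omega
  have hL2 : ∀ t, ((L t : ℕ) : ZMod m) = t := by
    intro t
    simp only [L]
    rw [Nat.cast_add, ZMod.natCast_zmod_val]
    ring
  have hL3 : ∀ t, L t < n := by
    intro t
    have := hL1 t
    omega
  let f : ZMod m → ZMod n := fun t => ((L t : ℕ) : ZMod n)
  have hf : ∀ t, (f t).val = L t := fun t => ZMod.val_natCast_of_lt (hL3 t)
  let g : ZMod n → ZMod m := fun x => ((x.val : ℕ) : ZMod m)
  have hgf : ∀ t, g (f t) = t := by
    intro t
    simp only [g]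
    rw [hf, hL2]
  refine ⟨T.image f, ?_, Finset.card_image_of_injective _ (Function.LeftInverse.injective hgf)⟩
  have hmem : ∀ x ∈ T.image f, g x ∈ T ∧ f (g x) = x ∧ n + 1 ≤ 12 * x.val ∧ 12 * x.val + 1 ≤ 3 * n := by
    intro x hx
    rw [Finset.mem_image] at hx
    obtain ⟨t, ht, rfl⟩ := hx
    rw [hgf, hf]
    exact ⟨ht, rfl, hL1 t⟩
  -- equality of the sums of the representatives
  have key : ∀ M₁ M₂ : Multiset (ZMod n), (∀ x ∈ M₁, x ∈ T.image f) → (∀ x ∈ M₂, x ∈ T.image f) →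
      Multiset.card M₁ = Multiset.card M₂ → Multiset.card M₁ ≤ 2 →
      (M₁.map ZMod.val).sum = (M₂.map ZMod.val).sum → M₁ = M₂ := by
    intro M₁ M₂ h1 h2 hc hc2 hs
    have e : (M₁.map g).sum = (M₂.map g).sum := by
      have := congrArg (fun x : ℕ => (x : ZMod m)) hs
      simp only [cast_sum'] at this
      exact this
    have e2 : M₁.map g = M₂.map g := by
      refine multiset_eq_of_sidon hT ?_ ?_ (by rw [Multiset.card_map, Multiset.card_map, hc])
        (by rw [Multiset.card_map]; exact hc2) e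
      · intro x hx
        rw [Multiset.mem_map] at hx
        obtain ⟨y, hy, rfl⟩ := hx
        exact (hmem y (h1 y hy)).1
      · intro x hx
        rw [Multiset.mem_map] at hx
        obtain ⟨y, hy, rfl⟩ := hx
        exact (hmem y (h2 y hy)).1
    have e3 : ∀ M : Multiset (ZMod n), (∀ x ∈ M, x ∈ T.image f) → (M.map g).map f = M := by
      intro M hM
      rw [Multiset.map_map]
      conv_rhs => rw [← Multiset.map_id M]
      refine Multiset.map_congr rfl fun x hx => ?_
      exact (hmem x (hM x hx)).2.1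
    rw [← e3 M₁ h1, ← e3 M₂ h2, e2]
  -- the case `a + b = c`
  have key3 : ∀ M₁ M₂ : Multiset (ZMod n), (∀ x ∈ M₁, x ∈ T.image f) → (∀ x ∈ M₂, x ∈ T.image f) →
      Multiset.card M₁ = 2 → Multiset.card M₂ = 1 →
      (M₁.map ZMod.val).sum ≠ (M₂.map ZMod.val).sum := by
    intro M₁ M₂ h1 h2 hc1 hc2 hs
    obtain ⟨a, b, rfl⟩ := Multiset.card_eq_two.mp hc1
    obtain ⟨c, rfl⟩ := Multiset.card_eq_one.mp hc2
    have e := congrArg (fun x : ℕ => (x : ZMod m)) hs
    simp only [Multiset.insert_eq_cons, Multiset.map_cons, Multiset.map_singleton,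
      Multiset.sum_cons, Multiset.sum_singleton, Nat.cast_add] at e
    exact hT3 _ (hmem a (h1 a (by simp))).1 _ (hmem b (h1 b (by simp))).1 _ (hmem c (h2 c (by simp))).1 e
  apply tindep_of_multiset
  intro M₁ M₂ h1 h2 hcard hsum
  have hb : ∀ M : Multiset (ZMod n), (∀ x ∈ M, x ∈ T.image f) →
      (n + 1) * Multiset.card M ≤ 12 * (M.map ZMod.val).sum ∧
      12 * (M.map ZMod.val).sum + Multiset.card M ≤ 3 * n * Multiset.card M := by
    intro M hM
    have := sum_bounds n (M.map ZMod.val) (by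
      intro x hx
      rw [Multiset.mem_map] at hx
      obtain ⟨y, hy, rfl⟩ := hx
      exact (hmem y (hM y hy)).2.2)
    rwa [Multiset.card_map] at this
  have b1 := hb M₁ h1
  have b2 := hb M₂ h2
  have hmod : (M₁.map ZMod.val).sum ≡ (M₂.map ZMod.val).sum [MOD n] := by
    rw [← ZMod.natCast_eq_natCast_iff, cast_val_sum, cast_val_sum, hsum]
  have k1 := key M₁ M₂ h1 h2
  have k2 := key3 M₁ M₂ h1 h2
  have k3 := key3 M₂ M₁ h2 h1
  obtain ⟨s₁, hs₁⟩ : ∃ s : ℕ, s = (M₁.map ZMod.val).sum := ⟨_, rfl⟩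
  obtain ⟨s₂, hs₂⟩ : ∃ s : ℕ, s = (M₂.map ZMod.val).sum := ⟨_, rfl⟩
  obtain ⟨c₁, hc₁⟩ : ∃ c : ℕ, c = Multiset.card M₁ := ⟨_, rfl⟩
  obtain ⟨c₂, hc₂⟩ : ∃ c : ℕ, c = Multiset.card M₂ := ⟨_, rfl⟩
  rw [← hs₁, ← hs₂] at hmod k1 k2
  rw [← hs₁, ← hs₂] at k3
  rw [← hs₁, ← hc₁] at b1
  rw [← hs₂, ← hc₂] at b2
  rw [← hc₁, ← hc₂] at k1 k2 k3 hcard
  -- `s₁ = s₂` or a contradiction
  have hd : (n : ℤ) ∣ (s₂ : ℤ) - s₁ := (Nat.modEq_iff_dvd).mp hmod
  obtain ⟨j, hj⟩ := hd
  have hc₁' : c₁ ≤ 4 := by omega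
  have hc₂' : c₂ ≤ 4 := by omega
  have hn1 : (1 : ℤ) ≤ n := by exact_mod_cast hnpos
  have hj2 : -1 < j := by
    by_contra hcon
    have h3 : (n : ℤ) * j ≤ n * (-1) := mul_le_mul_of_nonneg_left (by omega) (by omega)
    interval_cases c₁ <;> interval_cases c₂ <;> omega
  have hj3 : j < 1 := by
    by_contra hcon
    have h3 : (n : ℤ) * 1 ≤ n * j := mul_le_mul_of_nonneg_left (by omega) (by omega)
    interval_cases c₁ <;> interval_cases c₂ <;> omega
  have hj0 : j = 0 := by omega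
  rw [hj0, mul_zero] at hj
  have hss : s₁ = s₂ := by omega
  by_cases hcc : c₁ = c₂
  · exact k1 hcc (by omega) hss
  · exfalso
    by_cases q1 : c₁ = 2 ∧ c₂ = 1
    · exact k2 q1.1 q1.2 hss
    by_cases q2 : c₂ = 2 ∧ c₁ = 1
    · exact k3 q2.1 q2.2 hss.symm
    interval_cases c₁ <;> interval_cases c₂ <;> omega

/-- **Proposition.** If `p` is an odd prime and `6 (p ^ 2 - 1) < n`, then `ZMod n` has a
`4`-independent subset with at least `p - 1` elements. -/
theorem tau_four_ge_all (n p : ℕ) (hpp : p.Prime) (hp : Odd p) (hn : 6 * (p ^ 2 - 1) < n) :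
    p - 1 ≤ tau n 4 := by
  classical
  have hp3 : 2 < p := by
    rcases hpp.eq_two_or_odd' with h | h
    · rw [h] at hp; exact absurd hp (by decide)
    · have := hpp.two_le
      rcases Nat.lt_or_ge 2 p with h2 | h2
      · exact h2
      · have : p = 2 := by omega
        rw [this] at hp; exact absurd hp (by decide)
  have hm : NeZero (p ^ 2 - 1) := by
    constructor
    have : 3 ^ 2 ≤ p ^ 2 := Nat.pow_le_pow_left hp3 2
    omega
  have hne : NeZero n := ⟨by omega⟩
  obtain ⟨T, h1, h2⟩ := OddP.exists_sidon p hpp hp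
  have hTne : T.Nonempty := by
    rw [← Finset.card_pos]
    omega
  obtain ⟨s, hs⟩ := hTne
  -- translate `s` to `0` and remove it
  obtain ⟨A, hA, hcard⟩ := four_indep_lift n (p ^ 2 - 1) hn ((T.erase s).image (fun x => x - s)) (by
    intro a ha b hb c hc d hd h
    rw [Finset.mem_image] at ha hb hc hd
    obtain ⟨a', ha', rfl⟩ := ha
    obtain ⟨b', hb', rfl⟩ := hb
    obtain ⟨c', hc', rfl⟩ := hc
    obtain ⟨d', hd', rfl⟩ := hd
    have h5 : a' + b' = c' + d' := by linear_combination h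
    rcases h2 a' (Finset.mem_of_mem_erase ha') b' (Finset.mem_of_mem_erase hb') c'
      (Finset.mem_of_mem_erase hc') d' (Finset.mem_of_mem_erase hd') h5 with ⟨e1, e2⟩ | ⟨e1, e2⟩
    · left; rw [e1, e2]; exact ⟨rfl, rfl⟩
    · right; rw [e1, e2]; exact ⟨rfl, rfl⟩) (by
    intro a ha b hb c hc h
    rw [Finset.mem_image] at ha hb hc
    obtain ⟨a', ha', rfl⟩ := ha
    obtain ⟨b', hb', rfl⟩ := hb
    obtain ⟨c', hc', rfl⟩ := hc
    have h5 : a' + b' = c' + s := by linear_combination h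
    rcases h2 a' (Finset.mem_of_mem_erase ha') b' (Finset.mem_of_mem_erase hb') c'
      (Finset.mem_of_mem_erase hc') s hs h5 with ⟨e1, e2⟩ | ⟨e1, e2⟩
    · exact (Finset.mem_erase.mp hb').1 e2
    · exact (Finset.mem_erase.mp ha').1 e1)
  calc p - 1 ≤ #T - 1 := Nat.sub_le_sub_right h1 1
    _ ≤ #(T.erase s) := Finset.pred_card_le_card_erase
    _ = #((T.erase s).image (fun x => x - s)) :=
        (Finset.card_image_of_injective _ (sub_left_injective)).symm
    _ = #A := hcard.symm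
    _ ≤ _ := le_tau hA

end Pool.Agent.MP_364e44_co
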