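import Mathlib

/-!
Pollard's theorem for `ZMod p` (robust form of the Cauchy-Davenport inequality).
-/

open Finset

namespace Pool.Agent.MP_364e44_co

variable {p : ℕ} [NeZero p]

/-- indicator function with natural values -/
def ind (A : Finset (ZMod p)) (x : ZMod p) : ℕ := if x ∈ A then 1 else 0

/-- number of representations `x = a + b`, `a ∈ A`, `b ∈ B` -/
def rep (A B : Finset (ZMod p)) (x : ZMod p) : ℕ := ∑ y : ZMod p, ind A y * ind B (x - y)

omit [NeZero p] in
lemma ind_le_one (A : Finset (ZMod p)) (x : ZMod p) : ind A x ≤ 1 := by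
  unfold ind; split_ifs <;> simp

lemma sum_ind (A : Finset (ZMod p)) : ∑ x : ZMod p, ind A x = #A := by
  simp [ind]

lemma rep_le_right (A B : Finset (ZMod p)) (x : ZMod p) : rep A B x ≤ #B := by
  unfold rep
  calc ∑ y : ZMod p, ind A y * ind B (x - y) ≤ ∑ y : ZMod p, ind B (x - y) := by
        apply Finset.sum_le_sum
        intro y _
        calc ind A y * ind B (x - y) ≤ 1 * ind B (x - y) := Nat.mul_le_mul_right _ (ind_le_one A y)
          _ = _ := one_mul _
    _ = ∑ y : ZMod p, ind B y := (Equiv.subLeft x).sum_comp (fun y => ind B y)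
    _ = #B := sum_ind B

lemma sum_rep (A B : Finset (ZMod p)) : ∑ x : ZMod p, rep A B x = #A * #B := by
  unfold rep
  rw [Finset.sum_comm]
  calc ∑ y : ZMod p, ∑ x : ZMod p, ind A y * ind B (x - y)
      = ∑ y : ZMod p, ind A y * #B := by
        apply Finset.sum_congr rfl
        intro y _
        rw [← Finset.mul_sum]
        congr 1
        rw [← sum_ind B]
        exact (Equiv.subRight y).sum_comp (fun y => ind B y)
    _ = #A * #B := by rw [← Finset.sum_mul, sum_ind]

lemma rep_mono_right {A B B' : Finset (ZMod p)} (h : B' ⊆ B) (x : ZMod p) :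
    rep A B' x ≤ rep A B x := by
  unfold rep
  apply Finset.sum_le_sum
  intro y _
  apply Nat.mul_le_mul_left
  unfold ind
  split_ifs with h1 h2
  · exact le_rfl
  · exact absurd (h h1) h2
  · exact Nat.zero_le _
  · exact le_rfl

lemma rep_decomp (A B : Finset (ZMod p)) (x : ZMod p) :
    rep A B x = rep (A ∪ B) (A ∩ B) x + rep (A \ B) (B \ A) x := by
  have hA : ∀ y, ind A y = ind (A \ B) y + ind (A ∩ B) y := by
    intro y; unfold ind
    by_cases h1 : y ∈ A <;> by_cases h2 : y ∈ B <;> simp [h1, h2]
  have hB : ∀ y, ind B y = ind (B \ A) y + ind (A ∩ B) y := by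
    intro y; unfold ind
    by_cases h1 : y ∈ A <;> by_cases h2 : y ∈ B <;> simp [h1, h2]
  have hU : ∀ y, ind (A ∪ B) y = ind (A \ B) y + ind (B \ A) y + ind (A ∩ B) y := by
    intro y; unfold ind
    by_cases h1 : y ∈ A <;> by_cases h2 : y ∈ B <;> simp [h1, h2]
  have hsym : ∑ y : ZMod p, ind (A ∩ B) y * ind (B \ A) (x - y)
      = ∑ y : ZMod p, ind (B \ A) y * ind (A ∩ B) (x - y) := by
    rw [← (Equiv.subLeft x).sum_comp]
    apply Finset.sum_congr rfl
    intro y _
    simp [mul_comm]
  unfold rep
  calc ∑ y : ZMod p, ind A y * ind B (x - y)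
      = ∑ y : ZMod p, (ind (A \ B) y * ind (B \ A) (x - y) + ind (A \ B) y * ind (A ∩ B) (x - y)
          + ind (A ∩ B) y * ind (B \ A) (x - y) + ind (A ∩ B) y * ind (A ∩ B) (x - y)) := by
        apply Finset.sum_congr rfl
        intro y _
        rw [hA y, hB (x - y)]; ring
    _ = ∑ y : ZMod p, (ind (A \ B) y * ind (B \ A) (x - y)) + ∑ y : ZMod p, ind (A \ B) y * ind (A ∩ B) (x - y)
          + ∑ y : ZMod p, ind (A ∩ B) y * ind (B \ A) (x - y) + ∑ y : ZMod p, ind (A ∩ B) y * ind (A ∩ B) (x - y) := by
        rw [Finset.sum_add_distrib, Finset.sum_add_distrib, Finset.sum_add_distrib]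
    _ = ∑ y : ZMod p, (ind (A \ B) y * ind (B \ A) (x - y)) + ∑ y : ZMod p, ind (A \ B) y * ind (A ∩ B) (x - y)
          + ∑ y : ZMod p, ind (B \ A) y * ind (A ∩ B) (x - y) + ∑ y : ZMod p, ind (A ∩ B) y * ind (A ∩ B) (x - y) := by
        rw [hsym]
    _ = ∑ y : ZMod p, ind (A ∪ B) y * ind (A ∩ B) (x - y)
        + ∑ y : ZMod p, ind (A \ B) y * ind (B \ A) (x - y) := by
        rw [← Finset.sum_add_distrib, ← Finset.sum_add_distrib, ← Finset.sum_add_distrib,
          ← Finset.sum_add_distrib]
        apply Finset.sum_congr rfl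
        intro y _
        rw [hU y]; ring

lemma sum_min_rep_shift (A B : Finset (ZMod p)) (e : ZMod p) (t : ℕ) :
    ∑ x : ZMod p, min t (rep A (B.map (Equiv.addRight e).toEmbedding) x)
      = ∑ x : ZMod p, min t (rep A B x) := by
  symm
  apply Fintype.sum_equiv (Equiv.addRight e)
  intro x
  congr 1
  unfold rep
  apply Finset.sum_congr rfl
  intro y _
  congr 1
  unfold ind
  simp only [Equiv.coe_addRight, Finset.mem_map_equiv, Equiv.addRight_symm]
  have : x + e - y + -e = x - y := by ring
  simp [this]

lemma exists_shift {p : ℕ} [hp : Fact p.Prime] {A B : Finset (ZMod p)} (hA : A.Nonempty)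
    (hA' : #A < p) (hB : 1 < #B) :
    ∃ e : ZMod p, (A ∩ B.map (Equiv.addRight e).toEmbedding).Nonempty ∧
      ¬ (B.map (Equiv.addRight e).toEmbedding ⊆ A) := by
  by_contra hcon
  push Not at hcon
  obtain ⟨b1, hb1, b2, hb2, hne⟩ := Finset.one_lt_card.mp hB
  have key : ∀ a ∈ A, a + (b2 - b1) ∈ A := by
    intro a ha
    have h1 := hcon (a - b1) ⟨a, by
      rw [Finset.mem_inter]
      refine ⟨ha, ?_⟩
      rw [Finset.mem_map]
      exact ⟨b1, hb1, by simp⟩⟩
    apply h1
    rw [Finset.mem_map]
    exact ⟨b2, hb2, by simp; ring⟩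
  obtain ⟨a, ha⟩ := hA
  have key2 : ∀ k : ℕ, a + (k : ZMod p) * (b2 - b1) ∈ A := by
    intro k
    induction k with
    | zero => simpa using ha
    | succ k ih =>
      have := key _ ih
      convert this using 1
      push_cast; ring
  have hd : b2 - b1 ≠ 0 := sub_ne_zero.mpr (Ne.symm hne)
  have hall : ∀ x : ZMod p, x ∈ A := by
    intro x
    have h3 := key2 (((x - a) / (b2 - b1)).val)
    rw [ZMod.natCast_zmod_val] at h3
    convert h3 using 1
    field_simp
    ring
  have : A = Finset.univ := Finset.eq_univ_iff_forall.mpr hall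
  rw [this, Finset.card_univ, ZMod.card] at hA'
  exact lt_irrefl _ hA'

/-- **Pollard's theorem**. -/
theorem pollard {p : ℕ} [hp : Fact p.Prime] : ∀ (N : ℕ) (A B : Finset (ZMod p)) (t : ℕ), #B = N →
    t ≤ #A → t ≤ #B → t * min p (#A + #B - t) ≤ ∑ x : ZMod p, min t (rep A B x) := by
  intro N
  induction N using Nat.strong_induction_on with
  | _ N ih =>
  intro A B t hBN htA htB
  have hAp : #A ≤ p := by
    calc #A ≤ Fintype.card (ZMod p) := Finset.card_le_univ _
      _ = p := ZMod.card p
  rcases Nat.eq_zero_or_pos t with ht0 | ht1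
  · simp [ht0]
  rcases htB.eq_or_lt with hteq | htlt
  · -- t = #B
    have : ∀ x, min t (rep A B x) = rep A B x := by
      intro x
      rw [hteq]
      exact min_eq_right (rep_le_right A B x)
    simp only [this]
    rw [sum_rep, hteq]
    have : #A + #B - #B = #A := by omega
    rw [this, min_eq_right hAp, mul_comm]
  · by_cases hbig : p < #A + #B - t
    · -- reduce B
      obtain ⟨B', hB'sub, hB'card⟩ := Finset.exists_subset_card_eq (s := B) (n := p + t - #A) (by omega)
      have h1 := ih #B' (by omega) A B' t rfl htA (by omega)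
      calc t * min p (#A + #B - t) ≤ t * p := Nat.mul_le_mul_left _ (min_le_left _ _)
        _ = t * min p (#A + #B' - t) := by
            congr 1
            rw [hB'card, min_eq_left]; omega
        _ ≤ _ := h1
        _ ≤ _ := by
            apply Finset.sum_le_sum
            intro x _
            exact min_le_min_left _ (rep_mono_right hB'sub x)
    · have hAlt : #A < p := by omega
      have hAne : A.Nonempty := Finset.card_pos.mp (by omega)
      obtain ⟨e, he1, he2⟩ := exists_shift hAne hAlt (by omega : 1 < #B)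
      rw [← sum_min_rep_shift A B e t]
      set C := B.map (Equiv.addRight e).toEmbedding with hC
      have hCcard : #C = #B := by rw [hC, Finset.card_map]
      rw [← hCcard] at hBN htB htlt hbig ⊢
      have hI1 : 1 ≤ #(A ∩ C) := Finset.card_pos.mpr he1
      have hI2 : #(A ∩ C) < #C := by
        apply Finset.card_lt_card
        refine ⟨Finset.inter_subset_right, ?_⟩
        intro hcon
        exact he2 (fun x hx => (Finset.mem_inter.mp (hcon hx)).1)
      have hUI : #(A ∪ C) + #(A ∩ C) = #A + #C := Finset.card_union_add_card_inter A C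
      have hA' : #(A \ C) + #(A ∩ C) = #A := Finset.card_sdiff_add_card_inter A C
      have hC' : #(C \ A) + #(A ∩ C) = #C := by
        rw [Finset.inter_comm]; exact Finset.card_sdiff_add_card_inter C A
      rcases le_or_gt t #(A ∩ C) with hcase | hcase
      · have h1 := ih #(A ∩ C) (by omega) (A ∪ C) (A ∩ C) t rfl (by omega) hcase
        calc t * min p (#A + #C - t) = t * min p (#(A ∪ C) + #(A ∩ C) - t) := by rw [hUI]
          _ ≤ _ := h1
          _ ≤ _ := by
            apply Finset.sum_le_sum
            intro x _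
            apply min_le_min_left
            rw [rep_decomp A C x]
            exact Nat.le_add_right _ _
      · have h1 := ih #(C \ A) (by omega) (A \ C) (C \ A) (t - #(A ∩ C)) rfl (by omega) (by omega)
        have h2 : ∀ x, rep (A ∪ C) (A ∩ C) x + min (t - #(A ∩ C)) (rep (A \ C) (C \ A) x)
            ≤ min t (rep A C x) := by
          intro x
          rw [rep_decomp A C x]
          have := rep_le_right (A ∪ C) (A ∩ C) x
          omega
        have h3 : #(A ∪ C) * #(A ∩ C) + (t - #(A ∩ C)) * min p (#(A \ C) + #(C \ A) - (t - #(A ∩ C)))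
            ≤ ∑ x : ZMod p, min t (rep A C x) := by
          calc _ ≤ #(A ∪ C) * #(A ∩ C) + ∑ x : ZMod p, min (t - #(A ∩ C)) (rep (A \ C) (C \ A) x) := by
                exact Nat.add_le_add_left h1 _
            _ = ∑ x : ZMod p, (rep (A ∪ C) (A ∩ C) x + min (t - #(A ∩ C)) (rep (A \ C) (C \ A) x)) := by
                rw [Finset.sum_add_distrib, sum_rep]
            _ ≤ _ := Finset.sum_le_sum (fun x _ => h2 x)
        refine le_trans ?_ h3
        have h4 : min p (#A + #C - t) = #A + #C - t := min_eq_right (by omega)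
        have h5 : min p (#(A \ C) + #(C \ A) - (t - #(A ∩ C))) = #(A \ C) + #(C \ A) - (t - #(A ∩ C)) :=
          min_eq_right (by omega)
        rw [h4, h5]
        -- arithmetic
        obtain ⟨s, hs⟩ : ∃ s, t = #(A ∩ C) + s := ⟨t - #(A ∩ C), by omega⟩
        obtain ⟨u, hu⟩ : ∃ u, #(A \ C) = s + u := ⟨#(A \ C) - s, by omega⟩
        have e1 : #A + #C - t = u + #(C \ A) + #(A ∩ C) := by omega
        have e2 : t - #(A ∩ C) = s := by omega
        have e3 : #(A \ C) + #(C \ A) - s = u + #(C \ A) := by omega
        have e4 : #(A ∪ C) = s + u + #(C \ A) + #(A ∩ C) := by omega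
        rw [e2, e1, e3, e4, hs]
        apply le_of_eq
        ring

end Pool.Agent.MP_364e44_co
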