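import Mathlib
import Pool.Agent.MP_364e44_co.Pollard

/-!
Popular sums and a lower bound for the number of solutions of `x₁ + ... + x₅ = 0` in a set of density
slightly larger than `1/5` in `ZMod p`.
-/

open Finset

namespace Pool.Agent.MP_364e44_co

section general
variable {p : ℕ} [NeZero p]

/-- real indicator function -/
def rInd (A : Finset (ZMod p)) (x : ZMod p) : ℝ := if x ∈ A then 1 else 0

/-- convolution -/
def cv (f g : ZMod p → ℝ) (x : ZMod p) : ℝ := ∑ y : ZMod p, f y * g (x - y)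

/-- weighted number of solutions of `x₁ + ... + x₅ = 0` -/
def H5 (f : ZMod p → ℝ) : ℝ := cv f (cv (cv f f) (cv f f)) 0

omit [NeZero p] in
lemma rInd_nonneg (A : Finset (ZMod p)) (x : ZMod p) : 0 ≤ rInd A x := by
  unfold rInd; split_ifs <;> simp

omit [NeZero p] in
lemma rInd_eq (A : Finset (ZMod p)) (x : ZMod p) : rInd A x = (ind A x : ℝ) := by
  unfold rInd ind; split_ifs <;> simp

lemma cv_rInd (A B : Finset (ZMod p)) (x : ZMod p) : cv (rInd A) (rInd B) x = (rep A B x : ℝ) := by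
  unfold cv rep
  push_cast
  simp only [rInd_eq]

lemma cv_nonneg {f g : ZMod p → ℝ} (hf : ∀ x, 0 ≤ f x) (hg : ∀ x, 0 ≤ g x) (x : ZMod p) :
    0 ≤ cv f g x := Finset.sum_nonneg (fun y _ => mul_nonneg (hf y) (hg _))

lemma cv_mono {f g f' g' : ZMod p → ℝ} (hf : ∀ x, 0 ≤ f x) (hg : ∀ x, 0 ≤ g x)
    (hff : ∀ x, f x ≤ f' x) (hgg : ∀ x, g x ≤ g' x) (x : ZMod p) :
    cv f g x ≤ cv f' g' x :=
  Finset.sum_le_sum (fun y _ => mul_le_mul (hff y) (hgg _) (hg _) ((hf y).trans (hff y)))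

lemma cv_smul (c d : ℝ) (f g : ZMod p → ℝ) (x : ZMod p) :
    cv (fun y => c * f y) (fun y => d * g y) x = c * d * cv f g x := by
  unfold cv
  rw [Finset.mul_sum]
  apply Finset.sum_congr rfl
  intro y _
  ring

lemma H5_mono {f f' : ZMod p → ℝ} (hf : ∀ x, 0 ≤ f x) (hff : ∀ x, f x ≤ f' x) : H5 f ≤ H5 f' := by
  unfold H5
  have h1 : ∀ x, 0 ≤ cv f f x := cv_nonneg hf hf
  have h2 : ∀ x, cv f f x ≤ cv f' f' x := cv_mono hf hf hff hff
  exact cv_mono hf (cv_nonneg h1 h1) hff (cv_mono h1 h1 h2 h2) 0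

lemma H5_smul (c : ℝ) (f : ZMod p → ℝ) : H5 (fun y => c * f y) = c ^ 5 * H5 f := by
  unfold H5
  have h1 : cv (fun y => c * f y) (fun y => c * f y) = fun x => (c * c) * cv f f x := by
    funext x; rw [cv_smul]
  rw [h1]
  have h2 : cv (fun x => (c * c) * cv f f x) (fun x => (c * c) * cv f f x)
      = fun x => (c * c) * (c * c) * cv (cv f f) (cv f f) x := by
    funext x; rw [cv_smul]
  rw [h2, cv_smul]
  ring

end general

/-- popular sums -/
lemma popular {p : ℕ} [hp : Fact p.Prime] (A B : Finset (ZMod p)) (κ : ℝ) (hκ : 0 < κ)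
    (hp1 : 1 + 1 / κ ≤ κ * p) (hA : κ * p + 1 ≤ #A) (hB : κ * p + 1 ≤ #B) :
    min (p : ℝ) (#A + #B) - 3 * κ * p ≤ (#{x : ZMod p | κ ^ 2 * p ≤ (rep A B x : ℝ)} : ℝ) := by
  set P : Finset (ZMod p) := {x : ZMod p | κ ^ 2 * p ≤ (rep A B x : ℝ)} with hP
  have hp0 : (0 : ℝ) < p := by exact_mod_cast hp.out.pos
  set t : ℕ := ⌈κ * p⌉₊ with ht
  set s : ℕ := ⌈κ ^ 2 * p⌉₊ with hs
  have ht1 : κ * p ≤ t := Nat.le_ceil _
  have ht2 : (t : ℝ) < κ * p + 1 := Nat.ceil_lt_add_one (by positivity)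
  have hs2 : (s : ℝ) < κ ^ 2 * p + 1 := Nat.ceil_lt_add_one (by positivity)
  have htA : t ≤ #A := by exact_mod_cast (ht2.le.trans hA)
  have htB : t ≤ #B := by exact_mod_cast (ht2.le.trans hB)
  have htpos : (0 : ℝ) < t := lt_of_lt_of_le (by positivity) ht1
  have hpol := pollard #B A B t rfl htA htB
  have hup : ∑ x : ZMod p, min t (rep A B x) ≤ t * #P + s * p := by
    calc ∑ x : ZMod p, min t (rep A B x) ≤ ∑ x : ZMod p, (t * ind P x + s) := by
          apply Finset.sum_le_sum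
          intro x _
          by_cases hx : x ∈ P
          · simp only [ind, hx, if_true, mul_one]
            exact (min_le_left _ _).trans (Nat.le_add_right _ _)
          · simp only [ind, hx, if_false, mul_zero, zero_add]
            refine (min_le_right _ _).trans ?_
            have : ¬ (κ ^ 2 * p ≤ (rep A B x : ℝ)) := by
              intro hcon; exact hx (by rw [hP]; simp [hcon])
            push Not at this
            have h2 : (rep A B x : ℝ) < s := this.trans_le (Nat.le_ceil _)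
            exact_mod_cast h2.le
      _ = t * #P + s * p := by
          rw [Finset.sum_add_distrib, ← Finset.mul_sum, sum_ind]
          simp [ZMod.card, mul_comm]
  have h3 : (t : ℝ) * min (p : ℝ) (#A + #B - t) ≤ t * #P + s * p := by
    have h4 : ((t * min p (#A + #B - t) : ℕ) : ℝ) ≤ ((t * #P + s * p : ℕ) : ℝ) := by
      exact_mod_cast hpol.trans hup
    have h5 : ((#A + #B - t : ℕ) : ℝ) = (#A : ℝ) + #B - t := by
      rw [Nat.cast_sub (by omega)]; push_cast; ring
    push_cast at h4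
    rw [h5] at h4
    exact h4
  have h6 : (s : ℝ) * p ≤ (κ * p + 1 / κ) * t := by
    calc (s : ℝ) * p ≤ (κ ^ 2 * p + 1) * p := by
          exact mul_le_mul_of_nonneg_right hs2.le hp0.le
      _ = (κ * p + 1 / κ) * (κ * p) := by field_simp
      _ ≤ _ := by
          apply mul_le_mul_of_nonneg_left ht1
          positivity
  have h7 : (t : ℝ) * min (p : ℝ) (#A + #B - t) ≤ t * (#P + (κ * p + 1 / κ)) := by
    calc _ ≤ _ := h3
      _ ≤ t * #P + (κ * p + 1 / κ) * t := by linarith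
      _ = _ := by ring
  have h8 : min (p : ℝ) (#A + #B - t) ≤ #P + (κ * p + 1 / κ) := le_of_mul_le_mul_left h7 htpos
  have h9 : min (p : ℝ) (#A + #B) - t ≤ min (p : ℝ) (#A + #B - t) := by
    rw [le_min_iff]
    constructor
    · have := min_le_left (p : ℝ) (#A + #B); linarith
    · have := min_le_right (p : ℝ) (#A + #B); linarith
  linarith

lemma H5_lower {p : ℕ} [hp : Fact p.Prime] (U : Finset (ZMod p)) (κ : ℝ) (hκ : 0 < κ) (hκ' : κ ≤ 1 / 75)
    (hp1 : 1 + 1 / κ ≤ κ * p) (hU : (1 / 5 : ℝ) * p ≤ #U) :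
    (κ ^ 2 * p) ^ 3 * (#U + min (p : ℝ) (4 * #U) - 9 * κ * p - p) ≤ H5 (rInd U) := by
  have hp0 : (0 : ℝ) < p := by exact_mod_cast hp.out.pos
  have hk1 : 1 / κ > 0 := by positivity
  have hkp : κ * p ≤ 1 / 75 * p := mul_le_mul_of_nonneg_right hκ' hp0.le
  have hUp : (#U : ℝ) ≤ p := by
    have : #U ≤ p := by
      calc #U ≤ Fintype.card (ZMod p) := Finset.card_le_univ _
        _ = p := ZMod.card p
    exact_mod_cast this
  set P2 : Finset (ZMod p) := {x : ZMod p | κ ^ 2 * p ≤ (rep U U x : ℝ)} with hP2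
  have h2 : min (p : ℝ) (#U + #U) - 3 * κ * p ≤ #P2 :=
    popular U U κ hκ hp1 (by linarith) (by linarith)
  have h2' : (2 / 5 : ℝ) * p ≤ min (p : ℝ) (#U + #U) := by
    rw [le_min_iff]; constructor <;> linarith
  set P4 : Finset (ZMod p) := {x : ZMod p | κ ^ 2 * p ≤ (rep P2 P2 x : ℝ)} with hP4
  have h4 : min (p : ℝ) (#P2 + #P2) - 3 * κ * p ≤ #P4 :=
    popular P2 P2 κ hκ hp1 (by linarith) (by linarith)
  have h5 : min (p : ℝ) (4 * #U) - 9 * κ * p ≤ #P4 := by
    have h6 : min (p : ℝ) (4 * #U) - 6 * κ * p ≤ min (p : ℝ) (#P2 + #P2) := by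
      rw [le_min_iff]
      constructor
      · have := min_le_left (p : ℝ) (4 * #U)
        have : 0 < κ * p := by positivity
        linarith
      · have h7 : min (p : ℝ) (4 * #U) ≤ 2 * min (p : ℝ) (#U + #U) := by
          rcases le_total (p : ℝ) (#U + #U) with h | h
          · rw [min_eq_left h]
            have := min_le_left (p : ℝ) (4 * #U)
            linarith
          · rw [min_eq_right h]
            have := min_le_right (p : ℝ) (4 * #U)
            linarith
        linarith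
    linarith
  -- lower bound for H5
  have hc : (0 : ℝ) ≤ κ ^ 2 * p := by positivity
  have g1 : ∀ x, (κ ^ 2 * p) * rInd P2 x ≤ cv (rInd U) (rInd U) x := by
    intro x
    rw [cv_rInd]
    by_cases hx : x ∈ P2
    · simp only [rInd, hx, if_true, mul_one]
      rw [hP2] at hx
      simpa using hx
    · simp [rInd, hx]
  have g2 : ∀ x, (κ ^ 2 * p) ^ 3 * rInd P4 x ≤ cv (cv (rInd U) (rInd U)) (cv (rInd U) (rInd U)) x := by
    intro x
    have h0 : ∀ x, 0 ≤ (κ ^ 2 * p) * rInd P2 x := fun x => mul_nonneg hc (rInd_nonneg _ _)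
    have h1 := cv_mono h0 h0 g1 g1 x
    rw [cv_smul, cv_rInd] at h1
    refine le_trans ?_ h1
    by_cases hx : x ∈ P4
    · simp only [rInd, hx, if_true, mul_one]
      have hx' : κ ^ 2 * p ≤ (rep P2 P2 x : ℝ) := by
        rw [hP4] at hx; simpa using hx
      calc (κ ^ 2 * p) ^ 3 = κ ^ 2 * p * (κ ^ 2 * p) * (κ ^ 2 * p) := by ring
        _ ≤ _ := mul_le_mul_of_nonneg_left hx' (by positivity)
    · simp only [rInd, hx, if_false, mul_zero]
      positivity
  have g3 : (κ ^ 2 * p) ^ 3 * ∑ y : ZMod p, rInd U y * rInd P4 (0 - y) ≤ H5 (rInd U) := by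
    unfold H5
    unfold cv
    rw [Finset.mul_sum]
    apply Finset.sum_le_sum
    intro y _
    have := g2 (0 - y)
    calc (κ ^ 2 * p) ^ 3 * (rInd U y * rInd P4 (0 - y))
        = rInd U y * ((κ ^ 2 * p) ^ 3 * rInd P4 (0 - y)) := by ring
      _ ≤ _ := mul_le_mul_of_nonneg_left this (rInd_nonneg _ _)
  have g4 : (#U : ℝ) + #P4 - p ≤ ∑ y : ZMod p, rInd U y * rInd P4 (0 - y) := by
    have e1 : (#U : ℝ) = ∑ y : ZMod p, rInd U y := by
      simp only [rInd_eq]; rw [← sum_ind U]; push_cast; rfl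
    have e2 : (#P4 : ℝ) = ∑ y : ZMod p, rInd P4 (0 - y) := by
      have h1 : ∑ y : ZMod p, rInd P4 (0 - y) = ∑ y : ZMod p, rInd P4 y :=
        (Equiv.subLeft (0 : ZMod p)).sum_comp (fun y => rInd P4 y)
      rw [h1]
      simp only [rInd_eq]; rw [← sum_ind P4]; push_cast; rfl
    have e3 : (p : ℝ) = ∑ y : ZMod p, (1 : ℝ) := by simp [ZMod.card]
    have e4 : ∑ y : ZMod p, (rInd U y + rInd P4 (0 - y) - 1)
        ≤ ∑ y : ZMod p, rInd U y * rInd P4 (0 - y) := by
      apply Finset.sum_le_sum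
      intro y _
      unfold rInd
      split_ifs <;> norm_num
    rw [Finset.sum_sub_distrib, Finset.sum_add_distrib, ← e1, ← e2, ← e3] at e4
    exact e4
  refine le_trans ?_ g3
  apply mul_le_mul_of_nonneg_left _ (by positivity)
  linarith

end Pool.Agent.MP_364e44_co
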