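import Mathlib
import Pool.Agent.MP_364e44_co.Popular

/-!
Finite Fourier analysis on `ZMod p` needed for the smoothing argument.
-/

open Finset

namespace Pool.Agent.MP_364e44_co

variable {p : ℕ} [NeZero p]

/-- the additive character `e(x / p)` -/
noncomputable def ec (x : ZMod p) : ℂ := ZMod.stdAddChar x

lemma ec_add (x y : ZMod p) : ec (x + y) = ec x * ec y := AddChar.map_add_eq_mul _ _ _

lemma ec_zero : ec (0 : ZMod p) = 1 := AddChar.map_zero_eq_one _

lemma norm_ec (x : ZMod p) : ‖ec x‖ = 1 := by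
  unfold ec
  rw [ZMod.stdAddChar_apply]
  exact Circle.norm_coe _

lemma star_ec (x : ZMod p) : (starRingEnd ℂ) (ec x) = ec (-x) := by
  have h1 : ec (-x) * ec x = 1 := by rw [← ec_add, neg_add_cancel, ec_zero]
  have h2 : (starRingEnd ℂ) (ec x) * ec x = 1 := by
    rw [mul_comm, Complex.mul_conj, Complex.normSq_eq_norm_sq, norm_ec]; simp
  have h3 : ec x ≠ 0 := by
    intro h; have := norm_ec x; rw [h] at this; simp at this
  exact mul_right_cancel₀ h3 (h2.trans h1.symm)

lemma sum_ec (x : ZMod p) : ∑ a : ZMod p, ec (a * x) = if x = 0 then (p : ℂ) else 0 := by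
  unfold ec
  rw [AddChar.sum_mulShift x (ZMod.isPrimitive_stdAddChar p), ZMod.card]
  split_ifs <;> simp

/-- Fourier transform -/
noncomputable def ft (f : ZMod p → ℝ) (a : ZMod p) : ℂ := ∑ x : ZMod p, (f x : ℂ) * ec (a * x)

lemma ft_cv (f g : ZMod p → ℝ) (a : ZMod p) : ft (cv f g) a = ft f a * ft g a := by
  unfold ft cv
  push_cast
  calc ∑ x : ZMod p, (∑ y : ZMod p, (f y : ℂ) * (g (x - y) : ℂ)) * ec (a * x)
      = ∑ x : ZMod p, ∑ y : ZMod p, (f y : ℂ) * (g (x - y) : ℂ) * ec (a * x) := by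
        apply Finset.sum_congr rfl; intro x _; rw [Finset.sum_mul]
    _ = ∑ y : ZMod p, ∑ x : ZMod p, (f y : ℂ) * (g (x - y) : ℂ) * ec (a * x) := Finset.sum_comm
    _ = ∑ y : ZMod p, ((f y : ℂ) * ec (a * y)) * ∑ z : ZMod p, (g z : ℂ) * ec (a * z) := by
        apply Finset.sum_congr rfl; intro y _
        rw [Finset.mul_sum]
        rw [← (Equiv.subRight y).sum_comp (fun z => (f y : ℂ) * ec (a * y) * ((g z : ℂ) * ec (a * z)))]
        apply Finset.sum_congr rfl; intro x _
        simp only [Equiv.subRight_apply]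
        have : ec (a * x) = ec (a * y) * ec (a * (x - y)) := by rw [← ec_add]; congr 1; ring
        rw [this]; ring
    _ = _ := by rw [← Finset.sum_mul]

lemma ft_inv0 (f : ZMod p → ℝ) : ∑ a : ZMod p, ft f a = p * (f 0 : ℂ) := by
  unfold ft
  rw [Finset.sum_comm]
  have : ∀ x : ZMod p, ∑ a : ZMod p, (f x : ℂ) * ec (a * x) = if x = 0 then p * (f 0 : ℂ) else 0 := by
    intro x
    rw [← Finset.mul_sum, sum_ec]
    split_ifs with h
    · rw [h]; ring
    · simp
  simp only [this]
  simp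

lemma parseval (f : ZMod p → ℝ) : ∑ a : ZMod p, ‖ft f a‖ ^ 2 = p * ∑ x : ZMod p, (f x) ^ 2 := by
  have key : ∀ a : ZMod p, ((‖ft f a‖ ^ 2 : ℝ) : ℂ) =
      ∑ x : ZMod p, ∑ y : ZMod p, (f x : ℂ) * (f y : ℂ) * ec (a * (x - y)) := by
    intro a
    rw [← Complex.normSq_eq_norm_sq, ← Complex.mul_conj]
    unfold ft
    rw [map_sum, Finset.sum_mul_sum]
    apply Finset.sum_congr rfl; intro x _
    apply Finset.sum_congr rfl; intro y _
    rw [map_mul, star_ec, Complex.conj_ofReal]
    have : ec (a * (x - y)) = ec (a * x) * ec (-(a * y)) := by rw [← ec_add]; congr 1; ring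
    rw [this]; ring
  have h : ((∑ a : ZMod p, ‖ft f a‖ ^ 2 : ℝ) : ℂ) = ((p * ∑ x : ZMod p, (f x) ^ 2 : ℝ) : ℂ) := by
    rw [Complex.ofReal_sum]
    simp only [key]
    rw [Finset.sum_comm]
    have h2 : ∀ x : ZMod p, ∑ a : ZMod p, ∑ y : ZMod p, (f x : ℂ) * (f y : ℂ) * ec (a * (x - y))
        = p * (f x : ℂ) ^ 2 := by
      intro x
      rw [Finset.sum_comm]
      have h3 : ∀ y : ZMod p, ∑ a : ZMod p, (f x : ℂ) * (f y : ℂ) * ec (a * (x - y))
          = if x = y then (p * (f x : ℂ) ^ 2) else 0 := by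
        intro y
        rw [← Finset.mul_sum, sum_ec]
        by_cases hxy : x = y
        · simp only [hxy, sub_self, if_true]; ring
        · have : x - y ≠ 0 := sub_ne_zero.mpr hxy
          simp [hxy, this]
      simp only [h3]
      simp
    simp only [h2]
    rw [← Finset.mul_sum]
    push_cast
    rfl
  exact_mod_cast h

lemma sum_ft_pow_five (f : ZMod p → ℝ) : ∑ a : ZMod p, (ft f a) ^ 5 = p * (H5 f : ℂ) := by
  unfold H5
  rw [← ft_inv0]
  apply Finset.sum_congr rfl
  intro a _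
  rw [ft_cv, ft_cv, ft_cv]; ring

lemma norm_ft_le (f : ZMod p → ℝ) (hf : ∀ x, 0 ≤ f x) (a : ZMod p) : ‖ft f a‖ ≤ ∑ x : ZMod p, f x := by
  unfold ft
  refine (norm_sum_le _ _).trans ?_
  apply Finset.sum_le_sum
  intro x _
  rw [norm_mul, norm_ec, mul_one, Complex.norm_real, Real.norm_eq_abs, abs_of_nonneg (hf x)]

/-- Pigeonhole: a large set on which the characters of `Λ` are almost trivial. -/
lemma exists_bohr (Λ : Finset (ZMod p)) (N : ℕ) (hN : 0 < N) :
    ∃ D : Finset (ZMod p), D.Nonempty ∧ (p : ℝ) ≤ #D * (N : ℝ) ^ #Λ ∧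
      ∀ a ∈ Λ, ∀ d ∈ D, ‖ec (a * d) - 1‖ ≤ 2 * Real.pi / N := by
  have hp0 : (0 : ℝ) < p := by exact_mod_cast Nat.pos_of_ne_zero (NeZero.ne p)
  have hN0 : (0 : ℝ) < N := by exact_mod_cast hN
  have : NeZero N := ⟨hN.ne'⟩
  let φ : ZMod p → (Λ → Fin N) := fun x a =>
    ⟨(N * ((a : ZMod p) * x).val) / p, by
      rw [Nat.div_lt_iff_lt_mul (Nat.pos_of_ne_zero (NeZero.ne p))]
      exact Nat.mul_lt_mul_of_pos_left (ZMod.val_lt _) hN⟩
  obtain ⟨y, -, hy⟩ := Finset.exists_le_card_fiber_of_nsmul_le_card_of_maps_to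
    (s := (Finset.univ : Finset (ZMod p))) (t := (Finset.univ : Finset (Λ → Fin N))) (f := φ)
    (b := (p : ℝ) / (N : ℝ) ^ #Λ) (fun _ _ => Finset.mem_univ _) Finset.univ_nonempty (by
      simp only [Finset.card_univ, Fintype.card_fun, Fintype.card_fin, Fintype.card_coe, ZMod.card,
        nsmul_eq_mul]
      push_cast
      apply le_of_eq
      field_simp)
  set B : Finset (ZMod p) := {x ∈ (Finset.univ : Finset (ZMod p)) | φ x = y} with hB
  have hBpos : 0 < #B := by
    have : (0 : ℝ) < #B := lt_of_lt_of_le (by positivity) hy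
    exact_mod_cast this
  obtain ⟨x0, hx0⟩ := Finset.card_pos.mp hBpos
  refine ⟨B.map (Equiv.subRight x0).toEmbedding, ?_, ?_, ?_⟩
  · exact ⟨0, by
      rw [Finset.mem_map]
      exact ⟨x0, hx0, by simp⟩⟩
  · rw [Finset.card_map]
    rwa [div_le_iff₀ (by positivity)] at hy
  · intro a ha d hd
    rw [Finset.mem_map] at hd
    obtain ⟨x, hx, hxd⟩ := hd
    have hd' : d = x - x0 := by rw [← hxd]; simp
    have hφ : φ x ⟨a, ha⟩ = φ x0 ⟨a, ha⟩ := by
      have h1 : φ x = y := by simpa [hB] using hx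
      have h2 : φ x0 = y := by simpa [hB] using hx0
      rw [h1, h2]
    have hval : (N * (a * x).val) / p = (N * (a * x0).val) / p := by
      have := congrArg Fin.val hφ
      simpa [φ] using this
    -- real estimates
    have hpN : 0 < p := Nat.pos_of_ne_zero (NeZero.ne p)
    have e1 := Nat.div_add_mod (N * (a * x).val) p
    have e2 := Nat.div_add_mod (N * (a * x0).val) p
    have m1 := Nat.mod_lt (N * (a * x).val) hpN
    have m2 := Nat.mod_lt (N * (a * x0).val) hpN
    have habs : |((N : ℝ) * (a * x).val - N * (a * x0).val)| ≤ p := by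
      rw [hval] at e1
      have e1' : ((N : ℝ) * (a * x).val) = p * ((N * (a * x0).val) / p : ℕ) + ((N * (a * x).val) % p : ℕ) := by
        exact_mod_cast e1.symm
      have e2' : ((N : ℝ) * (a * x0).val) = p * ((N * (a * x0).val) / p : ℕ) + ((N * (a * x0).val) % p : ℕ) := by
        exact_mod_cast e2.symm
      rw [e1', e2', abs_le]
      have m1' : (((N * (a * x).val) % p : ℕ) : ℝ) ≤ p := by exact_mod_cast m1.le
      have m2' : (((N * (a * x0).val) % p : ℕ) : ℝ) ≤ p := by exact_mod_cast m2.le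
      have n1 : (0 : ℝ) ≤ (((N * (a * x).val) % p : ℕ) : ℝ) := Nat.cast_nonneg _
      have n2 : (0 : ℝ) ≤ (((N * (a * x0).val) % p : ℕ) : ℝ) := Nat.cast_nonneg _
      constructor <;> linarith
    have hec : ec (a * d) = Complex.exp (Complex.I * ((2 * Real.pi * (((a * x).val : ℝ) - (a * x0).val) / p : ℝ) : ℂ)) := by
      have h1 : ec (a * d) = ec (a * x) * (starRingEnd ℂ) (ec (a * x0)) := by
        rw [star_ec, ← ec_add, hd']; congr 1; ring
      rw [h1]
      have h2 : ∀ z : ZMod p, ec z = Complex.exp (Complex.I * ((2 * Real.pi * (z.val : ℝ) / p : ℝ) : ℂ)) := by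
        intro z
        unfold ec
        rw [ZMod.stdAddChar_apply, ZMod.toCircle_apply]
        congr 1
        push_cast
        ring
      rw [h2, h2, ← Complex.exp_conj, ← Complex.exp_add]
      congr 1
      rw [map_mul, Complex.conj_I, Complex.conj_ofReal]
      push_cast
      ring
    rw [hec]
    refine (Real.norm_exp_I_mul_ofReal_sub_one_le).trans ?_
    rw [Real.norm_eq_abs]
    have h3 : 2 * Real.pi * (((a * x).val : ℝ) - (a * x0).val) / p
        = (2 * Real.pi / (N * p)) * ((N : ℝ) * (a * x).val - N * (a * x0).val) := by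
      field_simp
    rw [h3, abs_mul, abs_of_pos (by positivity)]
    calc 2 * Real.pi / (N * p) * |((N : ℝ) * (a * x).val - N * (a * x0).val)|
        ≤ 2 * Real.pi / (N * p) * p := mul_le_mul_of_nonneg_left habs (by positivity)
      _ = 2 * Real.pi / N := by field_simp

end Pool.Agent.MP_364e44_co
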