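import Mathlib
import Pool.Agent.MP_364e44_co.Fourier

/-!
The upper bound: symmetric sets `S` in `ZMod p` with `S + S` having at most two representations
(off `0`) and with no zero sum of five elements satisfy `#S ^ 2 ≤ (2/5 + o(1)) p`.
-/

open Finset

namespace Pool.Agent.MP_364e44_co

section general
variable {p : ℕ} [NeZero p]

lemma sum_rInd (A : Finset (ZMod p)) : ∑ x : ZMod p, rInd A x = (#A : ℝ) := by
  simp only [rInd_eq]; rw [← sum_ind A]; push_cast; rfl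

lemma cv_comm (f g : ZMod p → ℝ) (x : ZMod p) : cv f g x = cv g f x := by
  unfold cv
  rw [← (Equiv.subLeft x).sum_comp (fun y => f y * g (x - y))]
  apply Finset.sum_congr rfl
  intro y _
  simp only [Equiv.subLeft_apply]
  rw [show x - (x - y) = y by ring]; ring

lemma sum_cv (f g : ZMod p → ℝ) : ∑ x : ZMod p, cv f g x = (∑ x : ZMod p, f x) * ∑ x : ZMod p, g x := by
  unfold cv
  rw [Finset.sum_comm, Finset.sum_mul]
  apply Finset.sum_congr rfl
  intro y _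
  rw [← Finset.mul_sum]
  congr 1
  exact (Equiv.subRight y).sum_comp (fun z => g z)

variable {S : Finset (ZMod p)}

omit [NeZero p] in
lemma rInd_neg (hsym : ∀ x, x ∈ S → -x ∈ S) (x : ZMod p) : rInd S (-x) = rInd S x := by
  unfold rInd
  have : -x ∈ S ↔ x ∈ S := ⟨fun h => by simpa using hsym _ h, hsym x⟩
  simp [this]

lemma cv_self_zero (hsym : ∀ x, x ∈ S → -x ∈ S) : cv (rInd S) (rInd S) 0 = #S := by
  unfold cv
  rw [← sum_rInd]
  apply Finset.sum_congr rfl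
  intro y _
  rw [zero_sub, rInd_neg hsym]
  unfold rInd; split_ifs <;> simp

lemma energy_le (hsym : ∀ x, x ∈ S → -x ∈ S) (hr : ∀ x ≠ 0, cv (rInd S) (rInd S) x ≤ 2) :
    ∑ x : ZMod p, (cv (rInd S) (rInd S) x) ^ 2 ≤ 3 * (#S : ℝ) ^ 2 := by
  have h1 : ∀ x : ZMod p, (cv (rInd S) (rInd S) x) ^ 2 ≤
      2 * cv (rInd S) (rInd S) x + (if x = 0 then (#S : ℝ) ^ 2 else 0) := by
    intro x
    have hnn : 0 ≤ cv (rInd S) (rInd S) x := cv_nonneg (rInd_nonneg S) (rInd_nonneg S) x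
    by_cases hx : x = 0
    · simp only [hx, if_true]
      rw [hx, cv_self_zero hsym] at hnn
      rw [cv_self_zero hsym]
      linarith
    · simp only [hx, if_false, add_zero]
      rw [sq]
      exact mul_le_mul_of_nonneg_right (hr x hx) hnn
  calc ∑ x : ZMod p, (cv (rInd S) (rInd S) x) ^ 2
      ≤ ∑ x : ZMod p, (2 * cv (rInd S) (rInd S) x + (if x = 0 then (#S : ℝ) ^ 2 else 0)) :=
        Finset.sum_le_sum (fun x _ => h1 x)
    _ = 3 * (#S : ℝ) ^ 2 := by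
        rw [Finset.sum_add_distrib, ← Finset.mul_sum, sum_cv, sum_rInd]
        simp; ring

lemma card_sq_le (hsym : ∀ x, x ∈ S → -x ∈ S) (hr : ∀ x ≠ 0, cv (rInd S) (rInd S) x ≤ 2) :
    (#S : ℝ) ^ 2 ≤ #S + 2 * p := by
  have h1 : ∀ x : ZMod p, (cv (rInd S) (rInd S) x) ≤ 2 + (if x = 0 then (#S : ℝ) else 0) := by
    intro x
    by_cases hx : x = 0
    · simp only [hx, if_true]
      rw [cv_self_zero hsym]
      linarith
    · simp only [hx, if_false, add_zero]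
      exact hr x hx
  calc (#S : ℝ) ^ 2 = ∑ x : ZMod p, (cv (rInd S) (rInd S) x) := by rw [sum_cv, sum_rInd, sq]
    _ ≤ ∑ x : ZMod p, ((2 : ℝ) + (if x = 0 then (#S : ℝ) else 0)) :=
        Finset.sum_le_sum (fun x _ => h1 x)
    _ = #S + 2 * p := by
        rw [Finset.sum_add_distrib]
        simp [ZMod.card]; ring

/-- normalized indicator -/
noncomputable def nInd (D : Finset (ZMod p)) (x : ZMod p) : ℝ := (1 / (#D : ℝ)) * rInd D x

omit [NeZero p] in
lemma nInd_nonneg (D : Finset (ZMod p)) (x : ZMod p) : 0 ≤ nInd D x :=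
  mul_nonneg (by positivity) (rInd_nonneg _ _)

lemma sum_nInd {D : Finset (ZMod p)} (hD : D.Nonempty) : ∑ x : ZMod p, nInd D x = 1 := by
  unfold nInd
  rw [← Finset.mul_sum, sum_rInd]
  have : (0 : ℝ) < #D := by exact_mod_cast Finset.card_pos.mpr hD
  field_simp

lemma sum_nInd_sq {D : Finset (ZMod p)} (hD : D.Nonempty) :
    ∑ x : ZMod p, (nInd D x) ^ 2 = 1 / (#D : ℝ) := by
  have h0 : (0 : ℝ) < #D := by exact_mod_cast Finset.card_pos.mpr hD
  have h : ∀ x, (nInd D x) ^ 2 = (1 / (#D : ℝ)) ^ 2 * rInd D x := by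
    intro x
    unfold nInd rInd
    split_ifs <;> simp
  simp only [h]
  rw [← Finset.mul_sum, sum_rInd]
  field_simp

lemma l2_bound (hsym : ∀ x, x ∈ S → -x ∈ S) (hr : ∀ x ≠ 0, cv (rInd S) (rInd S) x ≤ 2)
    {D : Finset (ZMod p)} (hD : D.Nonempty) :
    ∑ x : ZMod p, (cv (rInd S) (nInd D) x) ^ 2 ≤ 2 + (#S : ℝ) / #D := by
  have h1 : ∀ y y' : ZMod p, ∑ x : ZMod p, rInd S (x - y) * rInd S (x - y')
      = cv (rInd S) (rInd S) (y' - y) := by
    intro y y'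
    unfold cv
    rw [← (Equiv.subRight y).sum_comp (fun u => rInd S u * rInd S (y' - y - u))]
    apply Finset.sum_congr rfl
    intro x _
    simp only [Equiv.subRight_apply]
    rw [← rInd_neg hsym (x - y')]
    congr 2
    ring
  have h2 : ∑ x : ZMod p, (cv (rInd S) (nInd D) x) ^ 2
      = ∑ y : ZMod p, ∑ y' : ZMod p, nInd D y * nInd D y' * cv (rInd S) (rInd S) (y' - y) := by
    have e1 : ∀ x : ZMod p, (cv (rInd S) (nInd D) x) ^ 2
        = ∑ y : ZMod p, ∑ y' : ZMod p, nInd D y * nInd D y' * (rInd S (x - y) * rInd S (x - y')) := by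
      intro x
      rw [cv_comm, sq]
      unfold cv
      rw [Finset.sum_mul_sum]
      apply Finset.sum_congr rfl; intro y _
      apply Finset.sum_congr rfl; intro y' _
      ring
    simp only [e1]
    rw [Finset.sum_comm]
    apply Finset.sum_congr rfl; intro y _
    rw [Finset.sum_comm]
    apply Finset.sum_congr rfl; intro y' _
    rw [← Finset.mul_sum, h1]
  rw [h2]
  have h3 : ∀ y y' : ZMod p, nInd D y * nInd D y' * cv (rInd S) (rInd S) (y' - y)
      ≤ 2 * (nInd D y * nInd D y') + (if y' = y then (nInd D y) ^ 2 * #S else 0) := by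
    intro y y'
    have hnn : 0 ≤ nInd D y * nInd D y' := mul_nonneg (nInd_nonneg _ _) (nInd_nonneg _ _)
    by_cases hy : y' = y
    · simp only [hy, if_true, sub_self, cv_self_zero hsym]
      have : 0 ≤ nInd D y * nInd D y := mul_nonneg (nInd_nonneg _ _) (nInd_nonneg _ _)
      nlinarith
    · simp only [hy, if_false, add_zero]
      have : y' - y ≠ 0 := sub_ne_zero.mpr hy
      have := hr _ this
      nlinarith
  calc ∑ y : ZMod p, ∑ y' : ZMod p, nInd D y * nInd D y' * cv (rInd S) (rInd S) (y' - y)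
      ≤ ∑ y : ZMod p, ∑ y' : ZMod p, (2 * (nInd D y * nInd D y')
          + (if y' = y then (nInd D y) ^ 2 * #S else 0)) :=
        Finset.sum_le_sum (fun y _ => Finset.sum_le_sum (fun y' _ => h3 y y'))
    _ = 2 * ((∑ y : ZMod p, nInd D y) * ∑ y : ZMod p, nInd D y) + (∑ y : ZMod p, (nInd D y) ^ 2) * #S := by
        simp only [Finset.sum_add_distrib]
        congr 1
        · rw [Finset.sum_mul_sum, Finset.mul_sum]
          apply Finset.sum_congr rfl; intro y _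
          rw [Finset.mul_sum]
        · simp [Finset.sum_mul]
    _ = 2 + (#S : ℝ) / #D := by
        rw [sum_nInd hD, sum_nInd_sq hD]; ring

lemma sum_norm_ft_four (hsym : ∀ x, x ∈ S → -x ∈ S) (hr : ∀ x ≠ 0, cv (rInd S) (rInd S) x ≤ 2) :
    ∑ a : ZMod p, ‖ft (rInd S) a‖ ^ 4 ≤ 3 * p * (#S : ℝ) ^ 2 := by
  have h1 : ∀ a : ZMod p, ‖ft (rInd S) a‖ ^ 4 = ‖ft (cv (rInd S) (rInd S)) a‖ ^ 2 := by
    intro a
    rw [ft_cv, norm_mul]; ring
  simp only [h1]
  rw [parseval]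
  have := energy_le hsym hr
  have hp0 : (0 : ℝ) < p := by exact_mod_cast Nat.pos_of_ne_zero (NeZero.ne p)
  nlinarith

lemma ft_nInd_sub_one {D : Finset (ZMod p)} (hD : D.Nonempty) (a : ZMod p) (δ : ℝ)
    (h : ∀ d ∈ D, ‖ec (a * d) - 1‖ ≤ δ) : ‖ft (nInd D) a - 1‖ ≤ δ := by
  have e1 : ft (nInd D) a - 1 = ∑ x : ZMod p, (nInd D x : ℂ) * (ec (a * x) - 1) := by
    simp only [mul_sub, mul_one]
    rw [Finset.sum_sub_distrib]
    unfold ft
    congr 1
    rw [← Complex.ofReal_sum, sum_nInd hD]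
    simp
  rw [e1]
  refine (norm_sum_le _ _).trans ?_
  have h2 : ∀ x : ZMod p, ‖(nInd D x : ℂ) * (ec (a * x) - 1)‖ ≤ nInd D x * δ := by
    intro x
    rw [norm_mul, Complex.norm_real, Real.norm_eq_abs, abs_of_nonneg (nInd_nonneg D x)]
    by_cases hx : x ∈ D
    · exact mul_le_mul_of_nonneg_left (h x hx) (nInd_nonneg D x)
    · have : nInd D x = 0 := by simp [nInd, rInd, hx]
      rw [this]; simp
  refine (Finset.sum_le_sum (fun x _ => h2 x)).trans ?_
  rw [← Finset.sum_mul, sum_nInd hD, one_mul]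

lemma pow_five_sub_one (z : ℂ) (hz : ‖z‖ ≤ 1) : ‖z ^ 5 - 1‖ ≤ 5 * ‖z - 1‖ := by
  have e : z ^ 5 - 1 = (z ^ 4 + z ^ 3 + z ^ 2 + z + 1) * (z - 1) := by ring
  rw [e, norm_mul]
  apply mul_le_mul_of_nonneg_right _ (norm_nonneg _)
  have h4 : ‖z ^ 4‖ ≤ 1 := by rw [norm_pow]; exact pow_le_one₀ (norm_nonneg _) hz
  have h3 : ‖z ^ 3‖ ≤ 1 := by rw [norm_pow]; exact pow_le_one₀ (norm_nonneg _) hz
  have h2 : ‖z ^ 2‖ ≤ 1 := by rw [norm_pow]; exact pow_le_one₀ (norm_nonneg _) hz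
  have h0 : ‖(1 : ℂ)‖ = 1 := norm_one
  calc ‖z ^ 4 + z ^ 3 + z ^ 2 + z + 1‖ ≤ ‖z ^ 4‖ + ‖z ^ 3‖ + ‖z ^ 2‖ + ‖z‖ + ‖(1 : ℂ)‖ := by
        refine (norm_add_le _ _).trans ?_
        gcongr
        refine (norm_add_le _ _).trans ?_
        gcongr
        refine (norm_add_le _ _).trans ?_
        gcongr
        exact norm_add_le _ _
    _ ≤ 5 := by linarith

/-- The smoothed set has few zero sums of five elements. -/
lemma H5_smooth_le (hsym : ∀ x, x ∈ S → -x ∈ S) (hr : ∀ x ≠ 0, cv (rInd S) (rInd S) x ≤ 2)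
    (h0 : H5 (rInd S) = 0) {D : Finset (ZMod p)} (hD : D.Nonempty) {ε δ : ℝ} (hε : 0 ≤ ε)
    (hδ : 0 ≤ δ) (hΛ : ∀ a : ZMod p, ε * #S ≤ ‖ft (rInd S) a‖ → ∀ d ∈ D, ‖ec (a * d) - 1‖ ≤ δ) :
    H5 (cv (rInd S) (nInd D)) ≤ 3 * (5 * δ + 2 * ε) * (#S : ℝ) ^ 3 := by
  have hp0 : (0 : ℝ) < p := by exact_mod_cast Nat.pos_of_ne_zero (NeZero.ne p)
  have e1 : ∑ a : ZMod p, (ft (rInd S) a) ^ 5 = 0 := by
    rw [sum_ft_pow_five, h0]; simp
  have e2 : (p : ℂ) * (H5 (cv (rInd S) (nInd D)) : ℂ)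
      = ∑ a : ZMod p, (ft (rInd S) a) ^ 5 * ((ft (nInd D) a) ^ 5 - 1) := by
    rw [← sum_ft_pow_five]
    simp only [ft_cv, mul_sub, mul_one, mul_pow]
    rw [Finset.sum_sub_distrib, e1, sub_zero]
  have hnb : ∀ a : ZMod p, ‖ft (nInd D) a‖ ≤ 1 := by
    intro a
    have := norm_ft_le (nInd D) (nInd_nonneg D) a
    rwa [sum_nInd hD] at this
  have hns : ∀ a : ZMod p, ‖ft (rInd S) a‖ ≤ #S := by
    intro a
    have := norm_ft_le (rInd S) (rInd_nonneg S) a
    rwa [sum_rInd] at this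
  have e3 : ∀ a : ZMod p, ‖(ft (rInd S) a) ^ 5 * ((ft (nInd D) a) ^ 5 - 1)‖
      ≤ ‖ft (rInd S) a‖ ^ 4 * ((5 * δ + 2 * ε) * #S) := by
    intro a
    rw [norm_mul, norm_pow]
    have hS0 : (0 : ℝ) ≤ #S := Nat.cast_nonneg _
    have key : ‖ft (rInd S) a‖ * ‖(ft (nInd D) a) ^ 5 - 1‖ ≤ (5 * δ + 2 * ε) * #S := by
      by_cases ha : ε * #S ≤ ‖ft (rInd S) a‖
      · have h1 := ft_nInd_sub_one hD a δ (hΛ a ha)
        have h2 := pow_five_sub_one _ (hnb a)
        calc ‖ft (rInd S) a‖ * ‖(ft (nInd D) a) ^ 5 - 1‖ ≤ #S * (5 * δ) := by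
              apply mul_le_mul (hns a) (h2.trans (by linarith)) (norm_nonneg _) hS0
          _ ≤ _ := by nlinarith [mul_nonneg hε hS0]
      · push Not at ha
        have h2 : ‖(ft (nInd D) a) ^ 5 - 1‖ ≤ 2 := by
          calc ‖(ft (nInd D) a) ^ 5 - 1‖ ≤ ‖(ft (nInd D) a) ^ 5‖ + ‖(1 : ℂ)‖ := norm_sub_le _ _
            _ ≤ 1 + 1 := by
                rw [norm_pow, norm_one]
                have := pow_le_one₀ (n := 5) (norm_nonneg (ft (nInd D) a)) (hnb a)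
                linarith
            _ = 2 := by norm_num
        calc ‖ft (rInd S) a‖ * ‖(ft (nInd D) a) ^ 5 - 1‖ ≤ (ε * #S) * 2 := by
              apply mul_le_mul ha.le h2 (norm_nonneg _) (mul_nonneg hε hS0)
          _ ≤ _ := by nlinarith [mul_nonneg hδ hS0]
    calc ‖ft (rInd S) a‖ ^ 5 * ‖(ft (nInd D) a) ^ 5 - 1‖
        = ‖ft (rInd S) a‖ ^ 4 * (‖ft (rInd S) a‖ * ‖(ft (nInd D) a) ^ 5 - 1‖) := by ring
      _ ≤ _ := mul_le_mul_of_nonneg_left key (by positivity)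
  have e4 : (p : ℝ) * |H5 (cv (rInd S) (nInd D))| ≤ (3 * p * (#S : ℝ) ^ 2) * ((5 * δ + 2 * ε) * #S) := by
    have h1 : ‖(p : ℂ) * (H5 (cv (rInd S) (nInd D)) : ℂ)‖ = p * |H5 (cv (rInd S) (nInd D))| := by
      rw [norm_mul, Complex.norm_natCast, Complex.norm_real, Real.norm_eq_abs]
    rw [← h1, e2]
    refine (norm_sum_le _ _).trans ?_
    refine (Finset.sum_le_sum (fun a _ => e3 a)).trans ?_
    rw [← Finset.sum_mul]
    apply mul_le_mul_of_nonneg_right (sum_norm_ft_four hsym hr)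
    positivity
  have e5 : |H5 (cv (rInd S) (nInd D))| ≤ 3 * (5 * δ + 2 * ε) * (#S : ℝ) ^ 3 := by
    apply le_of_mul_le_mul_left _ hp0
    calc (p : ℝ) * |H5 (cv (rInd S) (nInd D))| ≤ _ := e4
      _ = _ := by ring
  exact (le_abs_self _).trans e5

end general

end Pool.Agent.MP_364e44_co
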