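import Mathlib
import Pool.Agent.MP_364e44_co.Upper

open Finset

namespace Pool.Agent.MP_364e44_co

theorem upper_bound (η : ℝ) (hη : 0 < η) (hη1 : η ≤ 1) : ∃ p0 : ℕ, ∀ p : ℕ, p0 ≤ p →
    ∀ (_ : Fact p.Prime) (S : Finset (ZMod p)), (∀ x, x ∈ S → -x ∈ S) →
      (∀ x ≠ 0, cv (rInd S) (rInd S) x ≤ 2) → H5 (rInd S) = 0 →
      (#S : ℝ) ^ 2 ≤ (2 / 5 + η) * p := by
  -- constants
  obtain ⟨κ, hκdef⟩ : ∃ κ : ℝ, κ = η / 75 := ⟨_, rfl⟩
  obtain ⟨τ, hτdef⟩ : ∃ τ : ℝ, τ = η / 7 := ⟨_, rfl⟩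
  have hκ : 0 < κ := by rw [hκdef]; positivity
  have hτ : 0 < τ := by rw [hτdef]; positivity
  have hτ1 : τ ≤ 1 / 7 := by rw [hτdef]; linarith
  have hκ1 : κ ≤ 1 / 75 := by rw [hκdef]; linarith
  obtain ⟨θ, hθdef⟩ : ∃ θ : ℝ, θ = τ ^ 5 * κ ^ 7 := ⟨_, rfl⟩
  have hθ : 0 < θ := by rw [hθdef]; positivity
  obtain ⟨ε, hεdef⟩ : ∃ ε : ℝ, ε = θ / 40 := ⟨_, rfl⟩
  have hε : 0 < ε := by rw [hεdef]; positivity
  obtain ⟨N, hNdef⟩ : ∃ N : ℕ, N = ⌈2 * Real.pi * 100 / θ⌉₊ + 1 := ⟨_, rfl⟩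
  have hN : 0 < N := by rw [hNdef]; omega
  have hN0 : (0 : ℝ) < N := by exact_mod_cast hN
  have hN1 : (1 : ℝ) ≤ N := by exact_mod_cast hN
  have hNδ : 2 * Real.pi / N ≤ θ / 100 := by
    rw [div_le_div_iff₀ hN0 (by norm_num)]
    have h1 : 2 * Real.pi * 100 / θ ≤ N := by
      rw [hNdef]; push_cast
      have := Nat.le_ceil (2 * Real.pi * 100 / θ)
      linarith
    rw [div_le_iff₀ hθ] at h1
    linarith
  obtain ⟨L, hLdef⟩ : ∃ L : ℕ, L = ⌈8 / ε ^ 4⌉₊ := ⟨_, rfl⟩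
  have hL : 8 / ε ^ 4 ≤ L := by rw [hLdef]; exact Nat.le_ceil _
  refine ⟨⌈(1 + 1 / κ) / κ⌉₊ + ⌈(2 * (N : ℝ) ^ L / τ) ^ 2⌉₊ + 10, ?_⟩
  intro p hp0 hp S hsym hr h0
  have hppos : (0 : ℝ) < p := by exact_mod_cast hp.out.pos
  have hpA : (1 + 1 / κ) / κ ≤ p := by
    have h1 := Nat.le_ceil ((1 + 1 / κ) / κ)
    have h2 : ((⌈(1 + 1 / κ) / κ⌉₊ : ℕ) : ℝ) ≤ p := by
      have : ⌈(1 + 1 / κ) / κ⌉₊ ≤ p := by omega
      exact_mod_cast this
    linarith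
  have hpA' : 1 + 1 / κ ≤ κ * p := by
    rw [div_le_iff₀ hκ] at hpA; linarith
  have hpB : (2 * (N : ℝ) ^ L / τ) ^ 2 ≤ p := by
    have h1 := Nat.le_ceil ((2 * (N : ℝ) ^ L / τ) ^ 2)
    have h2 : ((⌈(2 * (N : ℝ) ^ L / τ) ^ 2⌉₊ : ℕ) : ℝ) ≤ p := by
      have : ⌈(2 * (N : ℝ) ^ L / τ) ^ 2⌉₊ ≤ p := by omega
      exact_mod_cast this
    linarith
  have hp10 : (10 : ℝ) ≤ p := by
    have : 10 ≤ p := by omega
    exact_mod_cast this
  by_contra hcon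
  push Not at hcon
  have hk2 : (2 / 5 : ℝ) * p < (#S : ℝ) ^ 2 := by
    have : 0 < η * p := by positivity
    linarith
  obtain ⟨k, hkdef⟩ : ∃ k : ℝ, k = (#S : ℝ) := ⟨_, rfl⟩
  have hknn : 0 ≤ k := by rw [hkdef]; exact Nat.cast_nonneg _
  rw [← hkdef] at hk2 hcon
  have hk4 : 4 ≤ k ^ 2 := by linarith
  have hkge2 : 2 ≤ k := by nlinarith
  have hkpos : 0 < k := by linarith
  have hkle : k ^ 2 ≤ 4 * p := by
    have h1 := card_sq_le hsym hr
    rw [← hkdef] at h1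
    nlinarith
  -- large spectrum
  set Λ : Finset (ZMod p) := {a : ZMod p | ε * k ≤ ‖ft (rInd S) a‖} with hΛ
  have hfour := sum_norm_ft_four hsym hr
  rw [← hkdef] at hfour
  have hΛ1 : (#Λ : ℝ) * (ε * k) ^ 4 ≤ 3 * p * k ^ 2 := by
    calc (#Λ : ℝ) * (ε * k) ^ 4 = ∑ a ∈ Λ, (ε * k) ^ 4 := by rw [Finset.sum_const, nsmul_eq_mul]
      _ ≤ ∑ a ∈ Λ, ‖ft (rInd S) a‖ ^ 4 := by
          apply Finset.sum_le_sum
          intro a ha
          have ha' : ε * k ≤ ‖ft (rInd S) a‖ := by rw [hΛ] at ha; simpa using ha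
          exact pow_le_pow_left₀ (by positivity) ha' 4
      _ ≤ ∑ a : ZMod p, ‖ft (rInd S) a‖ ^ 4 :=
          Finset.sum_le_sum_of_subset_of_nonneg (Finset.subset_univ _) (fun _ _ _ => by positivity)
      _ ≤ _ := hfour
  have hΛ2 : (#Λ : ℝ) ≤ 8 / ε ^ 4 := by
    rw [le_div_iff₀ (by positivity)]
    have h1 : (#Λ : ℝ) * ε ^ 4 * k ^ 2 ≤ 3 * p := by
      have : ((#Λ : ℝ) * ε ^ 4 * k ^ 2) * k ^ 2 ≤ (3 * p) * k ^ 2 := by
        calc ((#Λ : ℝ) * ε ^ 4 * k ^ 2) * k ^ 2 = (#Λ : ℝ) * (ε * k) ^ 4 := by ring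
          _ ≤ _ := hΛ1
      exact le_of_mul_le_mul_right this (by positivity)
    have h2 : (#Λ : ℝ) * ε ^ 4 * (2 / 5 * p) ≤ 3 * p := by
      refine le_trans ?_ h1
      apply mul_le_mul_of_nonneg_left hk2.le (by positivity)
    have h3 : ((#Λ : ℝ) * ε ^ 4) * p ≤ 8 * p := by nlinarith
    exact le_of_mul_le_mul_right h3 hppos
  have hΛ3 : #Λ ≤ L := by exact_mod_cast hΛ2.trans hL
  obtain ⟨D, hD, hDcard, hDΛ⟩ := exists_bohr Λ N hN
  have hDpos : (0 : ℝ) < #D := by exact_mod_cast Finset.card_pos.mpr hD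
  have hD1 : (p : ℝ) ≤ #D * (N : ℝ) ^ L := by
    refine hDcard.trans ?_
    apply mul_le_mul_of_nonneg_left _ hDpos.le
    exact pow_le_pow_right₀ hN1 hΛ3
  have hkD : k / #D ≤ τ := by
    rw [div_le_iff₀ hDpos]
    -- k ≤ τ * #D
    have h1 : k * (N : ℝ) ^ L ≤ τ * p := by
      have h2 : (2 * (N : ℝ) ^ L) ^ 2 ≤ τ ^ 2 * p := by
        rw [div_pow, div_le_iff₀ (by positivity)] at hpB
        linarith
      have h3 : (k * (N : ℝ) ^ L) ^ 2 ≤ (τ * p) ^ 2 := by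
        calc (k * (N : ℝ) ^ L) ^ 2 = k ^ 2 * ((N : ℝ) ^ L) ^ 2 := by ring
          _ ≤ (4 * p) * ((N : ℝ) ^ L) ^ 2 := mul_le_mul_of_nonneg_right hkle (by positivity)
          _ = p * (2 * (N : ℝ) ^ L) ^ 2 := by ring
          _ ≤ p * (τ ^ 2 * p) := mul_le_mul_of_nonneg_left h2 hppos.le
          _ = _ := by ring
      exact (abs_le_of_sq_le_sq' h3 (by positivity)).2
    have hNL : (0 : ℝ) < (N : ℝ) ^ L := by positivity
    have h4 : k * (N : ℝ) ^ L ≤ (τ * #D) * (N : ℝ) ^ L := by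
      calc k * (N : ℝ) ^ L ≤ τ * p := h1
        _ ≤ τ * (#D * (N : ℝ) ^ L) := mul_le_mul_of_nonneg_left hD1 hτ.le
        _ = _ := by ring
    exact le_of_mul_le_mul_right h4 hNL
  -- smoothed function
  set F : ZMod p → ℝ := cv (rInd S) (nInd D) with hF
  have hFnn : ∀ x, 0 ≤ F x := cv_nonneg (rInd_nonneg S) (nInd_nonneg D)
  have hFsum : ∑ x : ZMod p, F x = k := by
    rw [hF, sum_cv, sum_rInd, sum_nInd hD, mul_one, hkdef]
  have hFsq : ∑ x : ZMod p, (F x) ^ 2 ≤ 2 + τ := by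
    have h1 := l2_bound hsym hr hD
    rw [← hkdef] at h1
    linarith
  have hH : H5 F ≤ 3 / 10 * θ * k ^ 3 := by
    have h1 := H5_smooth_le hsym hr h0 hD hε.le (δ := θ / 100) (by positivity) (by
      intro a ha d hd
      refine (hDΛ a ?_ d hd).trans hNδ
      rw [hΛ]
      rw [← hkdef] at ha
      simpa using ha)
    rw [← hkdef] at h1
    refine h1.trans (le_of_eq ?_)
    rw [hεdef]; ring
  -- level set
  set U : Finset (ZMod p) := {x : ZMod p | τ * k / p ≤ F x} with hU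
  have hUsum : (1 - τ) * k ≤ ∑ x ∈ U, F x := by
    have h1 : ∑ x ∈ U, F x + ∑ x ∈ Uᶜ, F x = k := by
      rw [Finset.sum_add_sum_compl, hFsum]
    have h2 : ∑ x ∈ Uᶜ, F x ≤ τ * k := by
      calc ∑ x ∈ Uᶜ, F x ≤ ∑ x ∈ Uᶜ, τ * k / p := by
            apply Finset.sum_le_sum
            intro x hx
            rw [Finset.mem_compl, hU] at hx
            simp only [Finset.mem_filter, Finset.mem_univ, true_and, not_le] at hx
            exact hx.le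
        _ ≤ ∑ x : ZMod p, τ * k / p :=
            Finset.sum_le_sum_of_subset_of_nonneg (Finset.subset_univ _) (fun _ _ _ => by positivity)
        _ = τ * k := by
            rw [Finset.sum_const, Finset.card_univ, ZMod.card, nsmul_eq_mul]
            field_simp
    linarith
  have hUcs : (∑ x ∈ U, F x) ^ 2 ≤ #U * (2 + τ) := by
    have h1 : (∑ x ∈ U, F x) ^ 2 ≤ #U * ∑ x ∈ U, (F x) ^ 2 := sq_sum_le_card_mul_sum_sq
    have h2 : ∑ x ∈ U, (F x) ^ 2 ≤ ∑ x : ZMod p, (F x) ^ 2 :=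
      Finset.sum_le_sum_of_subset_of_nonneg (Finset.subset_univ _) (fun _ _ _ => by positivity)
    refine h1.trans (mul_le_mul_of_nonneg_left (h2.trans hFsq) (Nat.cast_nonneg _))
  have hUcard : (1 / 5 + η / 4) * p ≤ #U := by
    have h1 : (1 - τ) ^ 2 * k ^ 2 ≤ #U * (2 + τ) := by
      refine le_trans ?_ hUcs
      have : ((1 - τ) * k) ^ 2 ≤ (∑ x ∈ U, F x) ^ 2 :=
        pow_le_pow_left₀ (mul_nonneg (by linarith) hknn) hUsum 2
      calc _ = ((1 - τ) * k) ^ 2 := by ring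
        _ ≤ _ := this
    have h2 : (2 + τ) * (1 / 5 + η / 4) ≤ (1 - τ) ^ 2 * (2 / 5 + η) := by
      have h3 : 1 - 2 * τ ≤ (1 - τ) ^ 2 := by nlinarith
      have h4 : (1 - 2 * τ) * (2 / 5 + η) ≤ (1 - τ) ^ 2 * (2 / 5 + η) :=
        mul_le_mul_of_nonneg_right h3 (by linarith)
      refine le_trans ?_ h4
      rw [hτdef]
      nlinarith
    have h5 : (1 - τ) ^ 2 * ((2 / 5 + η) * p) ≤ (1 - τ) ^ 2 * k ^ 2 :=
      mul_le_mul_of_nonneg_left hcon.le (sq_nonneg _)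
    have h6 : (2 + τ) * ((1 / 5 + η / 4) * p) ≤ (2 + τ) * #U := by
      calc (2 + τ) * ((1 / 5 + η / 4) * p) = ((2 + τ) * (1 / 5 + η / 4)) * p := by ring
        _ ≤ ((1 - τ) ^ 2 * (2 / 5 + η)) * p := mul_le_mul_of_nonneg_right h2 hppos.le
        _ = (1 - τ) ^ 2 * ((2 / 5 + η) * p) := by ring
        _ ≤ _ := h5
        _ ≤ _ := h1
        _ = _ := by ring
    exact le_of_mul_le_mul_left h6 (by linarith)
  have hUlow := H5_lower U κ hκ hκ1 hpA' (by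
    have : 0 < η / 4 * p := by positivity
    linarith)
  have hgap : κ * p ≤ #U + min (p : ℝ) (4 * #U) - 9 * κ * p - p := by
    have hκp : κ * p ≤ 1 / 75 * p := mul_le_mul_of_nonneg_right hκ1 hppos.le
    have hκp2 : κ * p = η * p / 75 := by rw [hκdef]; ring
    have hηp : 0 < η * p := by positivity
    rcases le_total (p : ℝ) (4 * #U) with h | h
    · rw [min_eq_left h]; linarith
    · rw [min_eq_right h]; linarith
  have hFlow : (τ * k / p) ^ 5 * ((κ ^ 2 * p) ^ 3 * (κ * p)) ≤ H5 F := by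
    calc (τ * k / p) ^ 5 * ((κ ^ 2 * p) ^ 3 * (κ * p)) ≤ (τ * k / p) ^ 5 * H5 (rInd U) := by
          apply mul_le_mul_of_nonneg_left _ (by positivity)
          refine le_trans ?_ hUlow
          exact mul_le_mul_of_nonneg_left hgap (by positivity)
      _ = H5 (fun x => (τ * k / p) * rInd U x) := by rw [H5_smul]
      _ ≤ H5 F := by
          apply H5_mono
          · intro x
            exact mul_nonneg (by positivity) (rInd_nonneg _ _)
          · intro x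
            by_cases hx : x ∈ U
            · simp only [rInd, hx, if_true, mul_one]
              rw [hU] at hx
              simpa using hx
            · simp only [rInd, hx, if_false, mul_zero]
              exact hFnn x
  have hfin : θ * k ^ 5 / p ≤ 3 / 10 * θ * k ^ 3 := by
    calc θ * k ^ 5 / p = (τ * k / p) ^ 5 * ((κ ^ 2 * p) ^ 3 * (κ * p)) := by
          rw [hθdef]; field_simp
      _ ≤ _ := hFlow
      _ ≤ _ := hH
  rw [div_le_iff₀ hppos] at hfin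
  have hfin2 : (θ * k ^ 3) * k ^ 2 ≤ (θ * k ^ 3) * (3 / 10 * p) := by
    calc (θ * k ^ 3) * k ^ 2 = θ * k ^ 5 := by ring
      _ ≤ _ := hfin
      _ = _ := by ring
  have hfin3 : k ^ 2 ≤ 3 / 10 * p := le_of_mul_le_mul_left hfin2 (by positivity)
  linarith

end Pool.Agent.MP_364e44_co
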