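import Mathlib
import Pool.Agent.MP_364e44_co.Basic
import Pool.Agent.MP_364e44_co.UpperMain

open Finset

namespace Pool.Agent.MP_364e44_co

section
variable {n t : ℕ} {A : Finset (ZMod n)}

/-- `S = A ∪ (-A)` -/
def symm (A : Finset (ZMod n)) : Finset (ZMod n) := A ∪ A.image (fun x => -x)

lemma mem_symm {x : ZMod n} : x ∈ symm A ↔ x ∈ A ∨ -x ∈ A := by
  unfold symm
  rw [Finset.mem_union, Finset.mem_image]
  constructor
  · rintro (h | ⟨y, hy, rfl⟩)
    · exact Or.inl h
    · right; simpa using hy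
  · rintro (h | h)
    · exact Or.inl h
    · right; exact ⟨-x, h, by simp⟩

lemma neg_mem_symm {x : ZMod n} (hx : x ∈ symm A) : -x ∈ symm A := by
  rw [mem_symm] at hx ⊢
  rw [neg_neg]
  tauto

lemma not_both (hA : TIndep n t A) (ht : 2 ≤ t) {x : ZMod n} (hx : x ∈ A) : -x ∉ A := by
  intro hx'
  have h := list_sv_zero hA [x, -x] (by
    intro s hs
    simp only [List.mem_cons, List.not_mem_nil, or_false] at hs
    rcases hs with rfl | rfl
    · exact Or.inl hx
    · exact Or.inl hx') (by simpa using ht) (by simp) x hx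
  simp only [List.map_cons, List.map_nil, List.sum_cons, List.sum_nil, add_zero] at h
  unfold sv at h
  simp only [hx, hx', if_true] at h
  split_ifs at h <;> omega

lemma card_symm (hA : TIndep n t A) (ht : 2 ≤ t) : #(symm A) = 2 * #A := by
  unfold symm
  rw [Finset.card_union_of_disjoint, Finset.card_image_of_injective _ neg_injective]
  · ring
  · rw [Finset.disjoint_left]
    intro x hx hx'
    rw [Finset.mem_image] at hx'
    obtain ⟨y, hy, hyx⟩ := hx'
    exact not_both hA ht hx (by rw [← hyx]; simpa using hy)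

lemma zero_notMem (hA : TIndep n t A) (ht : 2 ≤ t) : (0 : ZMod n) ∉ A := by
  intro h
  exact not_both hA ht h (by simpa using h)

/-- two representations of a nonzero element are equal up to order -/
lemma rep_unique (hA : TIndep n t A) (ht : 4 ≤ t) {x y z : ZMod n} (hx : x ≠ 0) (hy : y ∈ symm A)
    (hxy : x - y ∈ symm A) (hz : z ∈ symm A) (hxz : x - z ∈ symm A) : z = y ∨ z = x - y := by
  by_contra hcon
  push Not at hcon
  obtain ⟨hc1, hc2⟩ := hcon
  have hn : ∀ u ∈ A, -u ∉ A := fun u hu => not_both hA (by omega) hu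
  have h := list_sv_zero hA [y, x - y, -z, -(x - z)] (by
    intro s hs
    simp only [List.mem_cons, List.not_mem_nil, or_false] at hs
    rcases hs with rfl | rfl | rfl | rfl
    · exact mem_symm.mp hy
    · exact mem_symm.mp hxy
    · exact mem_symm.mp (neg_mem_symm hz)
    · exact mem_symm.mp (neg_mem_symm hxz)) (by simpa using ht) (by
      simp only [List.sum_cons, List.sum_nil, add_zero]; ring)
  simp only [List.map_cons, List.map_nil, List.sum_cons, List.sum_nil, add_zero] at h
  have hyy : x - y ≠ -y := by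
    intro e; apply hx; have : x = 0 := by linear_combination e
    exact this
  rw [mem_symm] at hy hz hxy hxz
  rcases hy with hy | hy
  · have h1 := h y hy
    have e1 : sv A y y = 1 := by simp [sv, hy]
    have e2 : 0 ≤ sv A (x - y) y := by
      unfold sv
      split_ifs with g1 g2 g2
      · norm_num
      · norm_num
      · exfalso; apply hx; linear_combination g2
      · norm_num
    have e3 : 0 ≤ sv A (-z) y := by
      unfold sv
      split_ifs with g1 g2 g2
      · norm_num
      · norm_num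
      · exfalso; apply hc1; rw [g2]; ring
      · norm_num
    have e4 : 0 ≤ sv A (-(x - z)) y := by
      unfold sv
      split_ifs with g1 g2 g2
      · norm_num
      · norm_num
      · exfalso; apply hc2; rw [g2]; ring
      · norm_num
    omega
  · have h1 := h (-y) hy
    have hyA : y ∉ A := by
      intro hcon; exact hn y hcon hy
    have e1 : sv A y (-y) = -1 := by simp [sv, hyA]
    have e2 : sv A (x - y) (-y) ≤ 0 := by
      unfold sv
      split_ifs with g1 g2 g2
      · exfalso; exact hyy g2.symm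
      · norm_num
      · norm_num
      · norm_num
    have e3 : sv A (-z) (-y) ≤ 0 := by
      unfold sv
      split_ifs with g1 g2 g2
      · exfalso; apply hc1; exact (neg_injective g2).symm
      · norm_num
      · norm_num
      · norm_num
    have e4 : sv A (-(x - z)) (-y) ≤ 0 := by
      unfold sv
      split_ifs with g1 g2 g2
      · exfalso; apply hc2
        have := neg_injective g2
        rw [this]; ring
      · norm_num
      · norm_num
      · norm_num
    omega

lemma cv_le_two {n : ℕ} [NeZero n] {A : Finset (ZMod n)} (hA : TIndep n t A) (ht : 4 ≤ t)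
    (x : ZMod n) (hx : x ≠ 0) : cv (rInd (symm A)) (rInd (symm A)) x ≤ 2 := by
  have h1 : cv (rInd (symm A)) (rInd (symm A)) x
      = (#{y : ZMod n | y ∈ symm A ∧ x - y ∈ symm A} : ℝ) := by
    unfold cv rInd
    rw [Finset.card_filter]
    push_cast
    apply Finset.sum_congr rfl
    intro y _
    by_cases h1 : y ∈ symm A <;> by_cases h2 : x - y ∈ symm A <;> simp [h1, h2]
  rw [h1]
  rcases Finset.eq_empty_or_nonempty ({y : ZMod n | y ∈ symm A ∧ x - y ∈ symm A} : Finset (ZMod n)) with he | ⟨y, hy⟩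
  · rw [he]; simp
  · have hsub : ({y : ZMod n | y ∈ symm A ∧ x - y ∈ symm A} : Finset (ZMod n)) ⊆ {y, x - y} := by
      intro z hz
      simp only [Finset.mem_filter, Finset.mem_univ, true_and] at hy hz
      rw [Finset.mem_insert, Finset.mem_singleton]
      exact rep_unique hA ht hx hy.1 hy.2 hz.1 hz.2
    have := (Finset.card_le_card hsub).trans Finset.card_le_two
    exact_mod_cast this

/-- no zero sum of five elements -/
lemma no_five (hA : TIndep n t A) (ht : 5 ≤ t) {s₁ s₂ s₃ s₄ s₅ : ZMod n} (h₁ : s₁ ∈ symm A)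
    (h₂ : s₂ ∈ symm A) (h₃ : s₃ ∈ symm A) (h₄ : s₄ ∈ symm A) (h₅ : s₅ ∈ symm A) :
    s₁ + s₂ + s₃ + s₄ + s₅ ≠ 0 := by
  intro hsum
  rw [mem_symm] at h₁ h₂ h₃ h₄ h₅
  have h := list_sv_zero hA [s₁, s₂, s₃, s₄, s₅] (by
    intro s hs
    simp only [List.mem_cons, List.not_mem_nil, or_false] at hs
    rcases hs with rfl | rfl | rfl | rfl | rfl <;> assumption) (by simpa using ht) (by
      simp only [List.sum_cons, List.sum_nil, add_zero]
      rw [← hsum]; ring)
  simp only [List.map_cons, List.map_nil, List.sum_cons, List.sum_nil, add_zero] at h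
  have h' := Finset.sum_eq_zero h
  simp only [Finset.sum_add_distrib] at h'
  have o1 := sum_sv_odd h₁
  have o2 := sum_sv_odd h₂
  have o3 := sum_sv_odd h₃
  have o4 := sum_sv_odd h₄
  have o5 := sum_sv_odd h₅
  obtain ⟨k1, e1⟩ := o1
  obtain ⟨k2, e2⟩ := o2
  obtain ⟨k3, e3⟩ := o3
  obtain ⟨k4, e4⟩ := o4
  obtain ⟨k5, e5⟩ := o5
  omega

lemma H5_eq_zero {n : ℕ} [NeZero n] {A : Finset (ZMod n)} (hA : TIndep n t A) (ht : 5 ≤ t) :
    H5 (rInd (symm A)) = 0 := by
  unfold H5
  rw [show cv (rInd (symm A)) (cv (cv (rInd (symm A)) (rInd (symm A))) (cv (rInd (symm A)) (rInd (symm A)))) 0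
    = ∑ y : ZMod n, rInd (symm A) y * ∑ z : ZMod n, (∑ u : ZMod n, rInd (symm A) u * rInd (symm A) (z - u))
      * (∑ w : ZMod n, rInd (symm A) w * rInd (symm A) (0 - y - z - w)) from rfl]
  apply Finset.sum_eq_zero
  intro y _
  by_cases hy : y ∈ symm A
  swap
  · simp [rInd, hy]
  rw [mul_eq_zero]; right
  apply Finset.sum_eq_zero
  intro z _
  rw [Finset.sum_mul_sum]
  apply Finset.sum_eq_zero
  intro u _
  apply Finset.sum_eq_zero
  intro w _
  by_cases hu : u ∈ symm A
  swap
  · simp [rInd, hu]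
  by_cases hzu : z - u ∈ symm A
  swap
  · simp [rInd, hzu]
  by_cases hw : w ∈ symm A
  swap
  · simp [rInd, hw]
  by_cases hl : 0 - y - z - w ∈ symm A
  swap
  · rw [show rInd (symm A) (0 - y - z - w) = 0 by simp only [rInd, hl, if_false]]; ring
  exfalso
  exact no_five hA ht hy hu hzu hw hl (by ring)

end

theorem tau_sq_le (η : ℝ) (hη : 0 < η) (hη1 : η ≤ 1) : ∃ p0 : ℕ, ∀ p : ℕ, p0 ≤ p → p.Prime →
    ((tau p 5 : ℝ)) ^ 2 ≤ (1 / 10 + η) * p := by
  obtain ⟨p0, hp0⟩ := upper_bound η hη hη1
  refine ⟨p0, ?_⟩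
  intro p hp hprime
  have hF : Fact p.Prime := ⟨hprime⟩
  obtain ⟨A, hA, hcard⟩ := exists_tau p 5
  have h := hp0 p hp hF (symm A) (fun x hx => neg_mem_symm hx) (fun x hx => cv_le_two hA (by norm_num) x hx)
    (H5_eq_zero hA le_rfl)
  rw [card_symm hA (by norm_num), hcard] at h
  push_cast at h
  have hp0 : (0 : ℝ) ≤ p := Nat.cast_nonneg _
  have : 0 ≤ η * p := by positivity
  nlinarith

end Pool.Agent.MP_364e44_co
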